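import Pool.Agent.Lib.MP_e20aca_co.Transfer

/-!
Elementary inequalities for the hitting probabilities and additive-combinatorial counting.
-/

set_option autoImplicit false

open Finset
open scoped BigOperators

namespace Pool.Agent.Lib.Cov39

section yfun

lemma yy_zero (n m : ℕ) : yy n m 0 = 0 := by simp [yy]

lemma base_mem {n r : ℕ} (hr : r ≤ n) : 0 ≤ 1 - (r : ℝ) / n ∧ 1 - (r : ℝ) / n ≤ 1 := by
  have h0 : (0 : ℝ) ≤ (r : ℝ) / n := by positivity
  have h1 : (r : ℝ) / n ≤ 1 := div_le_one_of_le₀ (by exact_mod_cast hr) (by positivity)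
  constructor <;> linarith

lemma yy_nonneg {n r : ℕ} (m : ℕ) (hr : r ≤ n) : 0 ≤ yy n m r := by
  have := pow_le_one₀ (n := m) (base_mem hr).1 (base_mem hr).2
  unfold yy; linarith

lemma yy_le_one {n r : ℕ} (m : ℕ) (hr : r ≤ n) : yy n m r ≤ 1 := by
  have := pow_nonneg (base_mem hr).1 m
  unfold yy; linarith

lemma yy_mono {n r r' : ℕ} (m : ℕ) (h : r ≤ r') (hr : r' ≤ n) : yy n m r ≤ yy n m r' := by
  unfold yy
  have h1 : (r : ℝ) / n ≤ r' / n := by gcongr
  have := pow_le_pow_left₀ (base_mem hr).1 (show 1 - (r' : ℝ) / n ≤ 1 - r / n by linarith) m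
  linarith

lemma pow_sub_pow_le_aux {a d : ℝ} (hd : 0 ≤ d) (hda : d ≤ a) (ha : a ≤ 1) (m : ℕ) :
    a ^ m - (a - d) ^ m ≤ 1 - (1 - d) ^ m := by
  induction m with
  | zero => simp
  | succ m ih =>
    have h1 : (a - d) ^ m ≤ (1 - d) ^ m := pow_le_pow_left₀ (by linarith) (by linarith) m
    have h2 : (a - d) ^ m ≤ a ^ m := pow_le_pow_left₀ (by linarith) (by linarith) m
    have h3 : a * (a ^ m - (a - d) ^ m) ≤ a ^ m - (a - d) ^ m :=
      mul_le_of_le_one_left (by linarith) ha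
    have h4 : d * (a - d) ^ m ≤ d * (1 - d) ^ m := mul_le_mul_of_nonneg_left h1 hd
    rw [pow_succ, pow_succ, pow_succ]
    nlinarith

lemma yy_succ_le {n r r' : ℕ} (m : ℕ) (h : r' ≤ r + 1) (hr' : r' ≤ n) (hr : r ≤ n) (hn : 1 ≤ n) :
    yy n m r' ≤ yy n m r + yy n m 1 := by
  rcases Nat.lt_succ_iff_lt_or_eq.1 (Nat.lt_succ_of_le h) with h1 | h1
  · have := yy_mono m (Nat.lt_succ_iff.1 h1) hr
    have := yy_nonneg m hn
    linarith
  · subst h1
    have hn' : (0 : ℝ) < n := by exact_mod_cast hn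
    have h2 := pow_sub_pow_le_aux (a := 1 - (r : ℝ) / n) (d := 1 / n) (by positivity)
      (by
        have : ((r + 1 : ℕ) : ℝ) / n ≤ 1 := div_le_one_of_le₀ (by exact_mod_cast hr') hn'.le
        push_cast at this
        rw [add_div] at this
        linarith) (base_mem hr).2 m
    unfold yy
    push_cast
    rw [add_div, ← sub_sub]
    linarith

lemma ratio_aux {a b : ℝ} (ha : 0 ≤ a) (hab : a ≤ b) (hb : b ≤ 1) {m' m : ℕ} (h : m' ≤ m) :
    (1 - a ^ m) * (1 - b ^ m') ≤ (1 - a ^ m') * (1 - b ^ m) := by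
  induction m, h using Nat.le_induction with
  | base => exact le_of_eq (by ring)
  | succ m hm ih =>
    have h1 : a ^ m * ∑ i ∈ range m', b ^ i ≤ b ^ m * ∑ i ∈ range m', a ^ i := by
      rw [mul_sum, mul_sum]
      refine sum_le_sum fun i hi => ?_
      have hi' : i ≤ m := (mem_range.1 hi).le.trans hm
      obtain ⟨e, rfl⟩ := Nat.exists_eq_add_of_le hi'
      have h2 : a ^ e ≤ b ^ e := pow_le_pow_left₀ ha hab e
      have h3 : 0 ≤ a ^ i * b ^ i := mul_nonneg (pow_nonneg ha _) (pow_nonneg (ha.trans hab) _)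
      rw [pow_add, pow_add]
      nlinarith
    have h4 := mul_neg_geom_sum a m'
    have h5 := mul_neg_geom_sum b m'
    have h6 : 0 ≤ (1 - a) * (1 - b) := mul_nonneg (by linarith) (by linarith)
    have h7 := mul_le_mul_of_nonneg_left h1 h6
    have e1 : (1 - a ^ (m + 1)) * (1 - b ^ m') = (1 - a ^ m) * (1 - b ^ m')
        + (1 - a) * (1 - b) * (a ^ m * ∑ i ∈ range m', b ^ i) := by
      rw [← h5]; ring
    have e2 : (1 - a ^ m') * (1 - b ^ (m + 1)) = (1 - a ^ m') * (1 - b ^ m)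
        + (1 - a) * (1 - b) * (b ^ m * ∑ i ∈ range m', a ^ i) := by
      rw [← h4]; ring
    rw [e1, e2]
    linarith

lemma yy_ratio {n r m' m : ℕ} (h : m' ≤ m) (hr : r ≤ n) (hn : 1 ≤ n) :
    yy n m r * yy n m' 1 ≤ yy n m' r * yy n m 1 := by
  rcases Nat.eq_zero_or_pos r with rfl | h0
  · simp [yy_zero]
  · unfold yy
    refine ratio_aux (base_mem hr).1 ?_ (base_mem hn).2 h
    have : ((1 : ℕ) : ℝ) / n ≤ r / n := by gcongr; exact h0
    linarith

lemma yy_one_le {n : ℕ} (m : ℕ) (hn : 1 ≤ n) : yy n m 1 ≤ (m : ℝ) / n := by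
  have h := one_add_mul_le_pow (a := -(((1 : ℕ) : ℝ) / n)) (by linarith [(base_mem hn).1]) m
  unfold yy
  rw [← sub_eq_add_neg] at h
  have e : (m : ℝ) * -(((1 : ℕ) : ℝ) / n) = -((m : ℝ) / n) := by push_cast; ring
  rw [e] at h
  linarith

lemma le_yy {n m s : ℕ} (hs : s ≤ n) (h : s * m ≤ n) (hn : 1 ≤ n) :
    (s : ℝ) * m / n / 2 ≤ yy n m s := by
  have hn' : (0 : ℝ) < n := by exact_mod_cast hn
  set x : ℝ := s / n with hx
  have hx0 : 0 ≤ x := by positivity
  have hb := base_mem hs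
  rw [← hx] at hb
  have h1 : 1 + m * x ≤ (1 + x) ^ m := one_add_mul_le_pow (by linarith) m
  have h2 : (1 - x) ^ m * (1 + x) ^ m ≤ 1 := by
    rw [← mul_pow]
    exact pow_le_one₀ (mul_nonneg hb.1 (by linarith)) (by nlinarith)
  have h3 : 0 ≤ (1 - x) ^ m := pow_nonneg hb.1 m
  have h4 : (1 - x) ^ m * (1 + m * x) ≤ 1 := (mul_le_mul_of_nonneg_left h1 h3).trans h2
  have h5 : (m : ℝ) * x ≤ 1 := by
    rw [hx, ← mul_div_assoc, div_le_one hn']
    exact_mod_cast (mul_comm s m ▸ h)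
  have h6 : 0 ≤ (m : ℝ) * x := by positivity
  have e : (s : ℝ) * m / n / 2 = m * x / 2 := by rw [hx]; ring
  unfold yy
  rw [e, ← hx]
  set y := (m : ℝ) * x
  set p := (1 - x) ^ m
  by_contra hcon
  push Not at hcon
  nlinarith

lemma yy_one_pos {n m : ℕ} (hm : 1 ≤ m) (h : m ≤ n) : 0 < yy n m 1 := by
  have hn : 1 ≤ n := hm.trans h
  have h1 := le_yy (s := 1) hn (by simpa using h) hn
  have hn' : (0 : ℝ) < n := by exact_mod_cast hn
  have hm' : (0 : ℝ) < m := by exact_mod_cast hm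
  exact lt_of_lt_of_le (by positivity) h1

end yfun

section comb

variable {G : Type*} [DecidableEq G] [Fintype G] [AddCommGroup G]

omit [Fintype G] in
lemma rr_le (T P : Finset G) (x : G) : rr T P x ≤ T.card := card_filter_le _ _

omit [Fintype G] in
lemma rr_mono (T : Finset G) {P Q : Finset G} (h : P ⊆ Q) (x : G) : rr T P x ≤ rr T Q x :=
  card_le_card fun t ht => by
    simp only [mem_filter] at ht ⊢
    exact ⟨ht.1, h ht.2⟩

omit [Fintype G] in
lemma rr_insert_le (T P : Finset G) (b x : G) : rr T (insert b P) x ≤ rr T P x + 1 := by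
  have : (T.filter fun t' => x - t' ∈ insert b P) ⊆ insert (x - b) (T.filter fun t' => x - t' ∈ P) := by
    intro t ht
    simp only [mem_filter, mem_insert] at ht ⊢
    rcases ht.2 with h | h
    · left; rw [← h]; abel
    · right; exact ⟨ht.1, h⟩
  exact (card_le_card this).trans (card_insert_le _ _)

omit [Fintype G] in
lemma rr_insert_of_notMem (T P : Finset G) (b x : G) (h : x - b ∉ T) :
    rr T (insert b P) x = rr T P x := by
  unfold rr
  congr 1
  ext t
  simp only [mem_filter, mem_insert, and_congr_right_iff, or_iff_right_iff_imp]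
  intro ht h'
  exact absurd (by rw [← h']; simpa using ht) h

/-- The additive energy between `A` and `T`. -/
def en (T A : Finset G) : ℕ := ∑ t ∈ T, ∑ t' ∈ T, (A.filter fun b => b + (t - t') ∈ A).card

omit [Fintype G] in
lemma en_le (T A : Finset G) (L₀ : ℝ) (hL0 : 0 ≤ L₀)
    (hL : ∀ d ≠ 0, ((A.filter fun b => b + d ∈ A).card : ℝ) ≤ L₀) :
    (en T A : ℝ) ≤ T.card * (A.card + T.card * L₀) := by
  unfold en
  push_cast
  calc _ ≤ ∑ t ∈ T, ∑ t' ∈ T, ((if t = t' then (A.card : ℝ) else 0) + L₀) := by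
        refine sum_le_sum fun t _ => sum_le_sum fun t' _ => ?_
        split_ifs with h
        · have : ((A.filter fun b => b + (t - t') ∈ A).card : ℝ) ≤ A.card := by
            exact_mod_cast card_filter_le _ _
          linarith
        · simpa using hL _ (sub_ne_zero.2 h)
    _ = ∑ _t ∈ T, ((A.card : ℝ) + T.card * L₀) := by
        refine sum_congr rfl fun t ht => ?_
        rw [sum_add_distrib, sum_ite_eq, if_pos ht]
        simp
    _ = _ := by rw [sum_const, nsmul_eq_mul]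

omit [Fintype G] in
lemma sum_rr_eq_en (T A : Finset G) : ∑ b ∈ A, ∑ t ∈ T, rr T A (b + t) = en T A := by
  unfold en rr
  rw [sum_comm]
  refine sum_congr rfl fun t _ => ?_
  simp_rw [card_filter]
  rw [sum_comm]
  refine sum_congr rfl fun t' _ => sum_congr rfl fun b _ => ?_
  rw [add_sub_assoc]

lemma sum_sq_eq_en (T A : Finset G) :
    ∑ z, (T.filter fun t => t - z ∈ A).card ^ 2 = en T A := by
  unfold en
  simp_rw [card_filter, sq, sum_mul_sum]
  rw [sum_comm]
  refine sum_congr rfl fun t _ => ?_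
  rw [sum_comm]
  refine sum_congr rfl fun t' _ => ?_
  rw [← (Equiv.subLeft t').sum_comp, ← card_filter, card_filter]
  rw [← sum_filter_add_sum_filter_not univ (fun b => b ∈ A)]
  rw [sum_eq_zero (s := univ.filter fun b => b ∉ A), add_zero, filter_mem_eq_inter, univ_inter]
  · refine sum_congr rfl fun b hb => ?_
    have e : t - (t' - b) = b + (t - t') := by abel
    simp [e, hb]
  · intro b hb
    simp [(mem_filter.1 hb).2]

lemma card_heavy_le (T A : Finset G) (τ : ℝ) (hτ : 0 ≤ τ) :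
    ((univ.filter fun z => τ < ((T.filter fun t => t - z ∈ A).card : ℝ)).card : ℝ) * τ ^ 2
      ≤ en T A := by
  rw [← sum_sq_eq_en]
  push_cast
  calc _ = ∑ _z ∈ univ.filter fun z => τ < ((T.filter fun t => t - z ∈ A).card : ℝ), τ ^ 2 := by
        rw [sum_const, nsmul_eq_mul]
    _ ≤ ∑ z ∈ univ.filter fun z => τ < ((T.filter fun t => t - z ∈ A).card : ℝ),
          ((T.filter fun t => t - z ∈ A).card : ℝ) ^ 2 :=
        sum_le_sum fun z hz => pow_le_pow_left₀ hτ (mem_filter.1 hz).2.le 2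
    _ ≤ _ := sum_le_sum_of_subset_of_nonneg (subset_univ _) fun _ _ _ => by positivity

omit [Fintype G] in
lemma exists_enum (Z : Finset G) (zm : ℕ) (h : Z.card ≤ zm) :
    ∃ ζ : Fin zm → G, Z ⊆ univ.image ζ := by
  refine ⟨fun i => if hi : (i : ℕ) < Z.card then (Z.equivFin.symm ⟨i, hi⟩ : G) else 0, ?_⟩
  intro z hz
  refine mem_image.2 ⟨⟨Z.equivFin ⟨z, hz⟩, lt_of_lt_of_le (Z.equivFin ⟨z, hz⟩).2 h⟩, mem_univ _, ?_⟩
  simp

/-- Elements of `T` lying in two of the translates `z + A`, `z ∈ Z`. -/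
def tbad (T A Z : Finset G) : Finset G :=
  T.filter fun t => ∃ z ∈ Z, ∃ z' ∈ Z, z ≠ z' ∧ t - z ∈ A ∧ t - z' ∈ A

omit [Fintype G] in
lemma card_tbad_le (T A Z : Finset G) (L₀ : ℝ) (hL0 : 0 ≤ L₀)
    (hL : ∀ d ≠ 0, ((A.filter fun b => b + d ∈ A).card : ℝ) ≤ L₀) :
    ((tbad T A Z).card : ℝ) ≤ Z.card ^ 2 * L₀ := by
  have hsub : tbad T A Z ⊆ (Z ×ˢ Z).biUnion fun zz =>
      if zz.1 = zz.2 then ∅ else (A.filter fun b => b + (zz.1 - zz.2) ∈ A).image (· + zz.1) := by
    intro t ht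
    obtain ⟨-, z, hz, z', hz', hne, h1, h2⟩ := mem_filter.1 ht
    refine mem_biUnion.2 ⟨(z, z'), mem_product.2 ⟨hz, hz'⟩, ?_⟩
    rw [if_neg hne]
    refine mem_image.2 ⟨t - z, mem_filter.2 ⟨h1, ?_⟩, by simp⟩
    have e : t - z + (z - z') = t - z' := by abel
    rw [e]; exact h2
  calc _ ≤ (((Z ×ˢ Z).biUnion fun zz => if zz.1 = zz.2 then ∅ else
        (A.filter fun b => b + (zz.1 - zz.2) ∈ A).image (· + zz.1)).card : ℝ) := by
        exact_mod_cast card_le_card hsub
    _ ≤ ∑ zz ∈ Z ×ˢ Z, ((if zz.1 = zz.2 then ∅ else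
        (A.filter fun b => b + (zz.1 - zz.2) ∈ A).image (· + zz.1)).card : ℝ) := by
        exact_mod_cast card_biUnion_le
    _ ≤ ∑ _zz ∈ Z ×ˢ Z, L₀ := by
        refine sum_le_sum fun zz _ => ?_
        split_ifs with h
        · simpa using hL0
        · exact le_trans (by exact_mod_cast card_image_le) (hL _ (sub_ne_zero.2 h))
    _ = _ := by rw [sum_const, card_product, nsmul_eq_mul]; push_cast; ring

lemma rr_le_nb_add_one (T A Z P : Finset G) (hP : P ⊆ A) (x t : G) (ht : t ∈ T)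
    (hb : t ∉ tbad T A Z) : rr T P (x + t) ≤ (T ∩ nb Z P x t).card + 1 := by
  set S := T.filter fun t' => t' - x ∈ Z ∧ x + t - t' ∈ P with hS
  have h1 : S.card ≤ 1 := by
    rw [card_le_one]
    intro u hu v hv
    by_contra hne
    apply hb
    simp only [hS, mem_filter] at hu hv
    refine mem_filter.2 ⟨ht, u - x, hu.2.1, v - x, hv.2.1, fun h => hne (sub_left_inj.1 h), ?_, ?_⟩
    · have e : t - (u - x) = x + t - u := by abel
      rw [e]; exact hP hu.2.2
    · have e : t - (v - x) = x + t - v := by abel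
      rw [e]; exact hP hv.2.2
  have h2 : (T.filter fun t' => x + t - t' ∈ P) ⊆ (T ∩ nb Z P x t) ∪ S := by
    intro u hu
    simp only [hS, nb, mem_filter, mem_union, mem_inter, mem_univ, true_and] at hu ⊢
    tauto
  exact (card_le_card h2).trans ((card_union_le _ _).trans (by omega))

lemma card_inter_nb_eq (T Z P : Finset G) (x t : G) (h : ∀ t' ∈ T, t' - x ∉ Z) :
    (T ∩ nb Z P x t).card = rr T P (x + t) := by
  unfold rr
  congr 1
  ext u
  simp only [nb, mem_filter, mem_inter, mem_univ, true_and]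
  have := h u
  tauto

lemma expect_rr (T A : Finset G) :
    𝔼 x, (rr T A x : ℝ) = T.card * A.card / Fintype.card G := by
  rw [Fintype.expect_eq_sum_div_card]
  congr 1
  unfold rr
  simp_rw [card_filter]
  push_cast
  rw [sum_comm]
  rw [sum_congr rfl (g := fun _ => (A.card : ℝ))]
  · simp
  · intro t _
    rw [← Equiv.sum_comp (Equiv.addRight t) (fun x => if x - t ∈ A then (1 : ℝ) else 0)]
    simp

end comb

end Pool.Agent.Lib.Cov39
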