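import Pool.Agent.Lib.MP_e20aca_co.Comb

/-!
The deterministic core: moment bounds and the lower bound for the uncovered proportion.
-/

set_option autoImplicit false

open Finset
open scoped BigOperators

namespace Pool.Agent.Lib.Cov39

/-- Normalised hitting probability, a concave truncation of `r`. -/
noncomputable def rho (n m r : ℕ) : ℝ := yy n m r / yy n m 1

lemma rho_zero (n m : ℕ) : rho n m 0 = 0 := by simp [rho, yy_zero]

lemma rho_nonneg {n r : ℕ} (m : ℕ) (hr : r ≤ n) (hn : 1 ≤ n) : 0 ≤ rho n m r :=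
  div_nonneg (yy_nonneg m hr) (yy_nonneg m hn)

lemma rho_mono {n r r' : ℕ} (m : ℕ) (h : r ≤ r') (hr : r' ≤ n) (hn : 1 ≤ n) :
    rho n m r ≤ rho n m r' :=
  div_le_div_of_nonneg_right (yy_mono m h hr) (yy_nonneg m hn)

lemma rho_le {n r : ℕ} (m : ℕ) (hr : r ≤ n) (hn : 1 ≤ n) : rho n m r ≤ 1 / yy n m 1 :=
  div_le_div_of_nonneg_right (yy_le_one m hr) (yy_nonneg m hn)

lemma rho_succ_le {n r r' m : ℕ} (h : r' ≤ r + 1) (hr' : r' ≤ n) (hr : r ≤ n) (hm : 1 ≤ m)
    (hmn : m ≤ n) : rho n m r' ≤ rho n m r + 1 := by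
  have hp := yy_one_pos hm hmn
  unfold rho
  rw [div_add_one hp.ne']
  exact div_le_div_of_nonneg_right (yy_succ_le m h hr' hr (hm.trans hmn)) hp.le

lemma rho_anti {n r m' m : ℕ} (h : m' ≤ m) (hr : r ≤ n) (hm : 1 ≤ m') (hmn : m ≤ n) :
    rho n m r ≤ rho n m' r := by
  unfold rho
  rw [div_le_div_iff₀ (yy_one_pos (hm.trans h) hmn) (yy_one_pos hm (h.trans hmn))]
  exact yy_ratio h hr (hm.trans (h.trans hmn))

lemma psi_const (n m j : ℕ) (θ : ℝ) (r : ℕ) :
    psi n m (fun _ : Fin j => θ / yy n m 1) r = (1 + θ * rho n m r) ^ j := by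
  unfold psi rho
  rw [prod_const, card_univ, Fintype.card_fin]
  congr 2
  ring

lemma pow_succ_sub_le {x y : ℝ} (hx : 0 ≤ x) (hxy : x ≤ y) (j : ℕ) :
    y ^ (j + 1) ≤ x ^ (j + 1) + (j + 1) * (y - x) * y ^ j := by
  have h := abs_pow_sub_pow_le y x (j + 1)
  rw [abs_of_nonneg (sub_nonneg.2 hxy), abs_of_nonneg hx, abs_of_nonneg (hx.trans hxy),
    max_eq_left hxy, Nat.add_sub_cancel] at h
  have := le_abs_self (y ^ (j + 1) - x ^ (j + 1))
  push_cast at h
  nlinarith

/-- The interpolating coefficients. -/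
noncomputable def kap (n m J : ℕ) : Fin J → ℝ := fun s => -1 / yy n m (s + 1)

lemma yy_lower {n m J : ℕ} (hm : 1 ≤ m) (hJ : J * m ≤ n) (s : Fin J) :
    ((s : ℝ) + 1) * yy n m 1 / 2 ≤ yy n m (s + 1) := by
  have hs : (s : ℕ) + 1 ≤ J := s.2
  have h1 : ((s : ℕ) + 1) * m ≤ n := (Nat.mul_le_mul_right m hs).trans hJ
  have h2 : (s : ℕ) + 1 ≤ n := le_trans (Nat.le_mul_of_pos_right _ hm) h1
  have hn : 1 ≤ n := le_trans (by omega) h2
  have h3 := le_yy h2 h1 hn
  have h4 := yy_one_le m hn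
  push_cast at h3
  have h5 : ((s : ℝ) + 1) * yy n m 1 ≤ ((s : ℝ) + 1) * (m / n) := by gcongr
  rw [← mul_div_assoc] at h5
  linarith

lemma psi_kap_bounds {n m J r : ℕ} (hm : 1 ≤ m) (hJ : J * m ≤ n) (hJ0 : 0 < J) (hev : Even J)
    (hr : r ≤ n) :
    (if r = 0 then (1 : ℝ) else 0) ≤ psi n m (kap n m J) r ∧
      psi n m (kap n m J) r ≤ (if r = 0 then (1 : ℝ) else 0) + (1 + 12 / J * rho n m r) ^ J / 2 ^ J := by
  have hmn : m ≤ n := le_trans (Nat.le_mul_of_pos_left _ hJ0) hJ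
  have hn : 1 ≤ n := hm.trans hmn
  have hp := yy_one_pos hm hmn
  have hρ := rho_nonneg m hr hn
  have hpos : 0 ≤ (1 + 12 / J * rho n m r) ^ J / 2 ^ J := by positivity
  have hys : ∀ s : Fin J, 0 < yy n m (s + 1) := fun s =>
    lt_of_lt_of_le (by positivity) (yy_lower hm hJ s)
  by_cases h0 : r = 0
  · subst h0
    have : psi n m (kap n m J) 0 = 1 := by simp [psi, yy_zero]
    rw [this, if_pos rfl]
    exact ⟨le_rfl, by linarith⟩
  rw [if_neg h0]
  by_cases h1 : r ≤ J
  · have : psi n m (kap n m J) r = 0 := by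
      refine prod_eq_zero (mem_univ (⟨r - 1, by omega⟩ : Fin J)) ?_
      have e : r - 1 + 1 = r := by omega
      have h2 := hys ⟨r - 1, by omega⟩
      simp only [kap, e] at h2 ⊢
      field_simp
      ring
    rw [this]
    exact ⟨le_rfl, by linarith⟩
  push Not at h1
  have h2 : ∀ s : Fin J, 1 ≤ yy n m r / yy n m (s + 1) := fun s => by
    rw [le_div_iff₀ (hys s), one_mul]
    exact yy_mono m (by have := s.2; omega) hr
  have e : psi n m (kap n m J) r = ∏ s : Fin J, (yy n m r / yy n m (s + 1) - 1) := by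
    unfold psi kap
    have h3 : ∏ _s : Fin J, (-1 : ℝ) = 1 := by
      rw [prod_const, card_univ, Fintype.card_fin, hev.neg_one_pow]
    rw [← one_mul (∏ s : Fin J, (yy n m r / yy n m (s + 1) - 1))]
    conv_rhs => enter [1]; rw [← h3]
    rw [← prod_mul_distrib]
    refine prod_congr rfl fun s _ => ?_
    ring
  rw [e]
  refine ⟨prod_nonneg fun s _ => by linarith [h2 s], ?_⟩
  rw [zero_add]
  have hJ' : (0 : ℝ) < J := by exact_mod_cast hJ0
  calc _ ≤ ∏ s : Fin J, (2 * rho n m r / ((s : ℝ) + 1)) := by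
        refine prod_le_prod (fun s _ => by linarith [h2 s]) fun s _ => ?_
        have h3 := yy_lower hm hJ s
        have h4 : yy n m r / yy n m (s + 1) ≤ yy n m r / (((s : ℝ) + 1) * yy n m 1 / 2) :=
          div_le_div_of_nonneg_left (yy_nonneg m hr) (by positivity) h3
        have h5 : yy n m r / (((s : ℝ) + 1) * yy n m 1 / 2) = 2 * rho n m r / ((s : ℝ) + 1) := by
          unfold rho; field_simp
        linarith
    _ = (2 * rho n m r) ^ J / J.factorial := by
        rw [prod_div_distrib, prod_const, card_univ, Fintype.card_fin,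
          Fin.prod_univ_eq_prod_range (fun s => (s : ℝ) + 1) J, ← prod_range_add_one_eq_factorial]
        push_cast
        rfl
    _ = (2 * rho n m r / J) ^ J * ((J : ℝ) ^ J / J.factorial) := by
        rw [div_pow]; field_simp
    _ ≤ (2 * rho n m r / J) ^ J * 3 ^ J := by
        refine mul_le_mul_of_nonneg_left ?_ (by positivity)
        refine (Real.pow_div_factorial_le_exp _ hJ'.le J).trans ?_
        rw [← Real.exp_one_pow]
        exact pow_le_pow_left₀ (Real.exp_pos _).le (Real.exp_one_lt_three).le J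
    _ = (12 / J * rho n m r) ^ J / 2 ^ J := by
        rw [← mul_pow, ← div_pow]; congr 1; ring
    _ ≤ _ := by
        gcongr
        linarith

lemma sum_fin_ite_lt {k i : ℕ} (hi : i ≤ k) (d : ℕ → ℝ) :
    ∑ l : Fin k, (if (l : ℕ) < i then (1 : ℝ) else 0) * d l = ∑ l ∈ range i, d l := by
  rw [Fin.sum_univ_eq_sum_range (fun l => (if l < i then (1 : ℝ) else 0) * d l) k]
  rw [← sum_subset (range_subset_range.2 hi)]
  · exact sum_congr rfl fun l hl => by rw [if_pos (mem_range.1 hl), one_mul]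
  · intro l _ hl
    rw [if_neg (by simpa using hl), zero_mul]

variable {G : Type*} [DecidableEq G] [Fintype G] [AddCommGroup G]

lemma expect_le_add_translate (T : Finset G) (hT : T.Nonempty) (b : G) (g g' e : G → ℝ)
    (h1 : ∀ x, x - b ∉ T → g x ≤ g' x) (h2 : ∀ t ∈ T, g (b + t) ≤ g' (b + t) + e t) :
    𝔼 x, g x ≤ (𝔼 x, g' x) + T.card / Fintype.card G * 𝔼 t : T, e t := by
  have hn : (0 : ℝ) < T.card := by exact_mod_cast hT.card_pos
  have h3 : 𝔼 x, (if x - b ∈ T then e (x - b) else 0) = T.card / Fintype.card G * 𝔼 t : T, e t := by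
    rw [expect_coe, Fintype.expect_eq_sum_div_card,
      ← Equiv.sum_comp (Equiv.addRight b) (fun x => if x - b ∈ T then e (x - b) else 0)]
    simp only [Equiv.coe_addRight, add_sub_cancel_right]
    rw [← sum_filter, filter_mem_eq_inter, univ_inter]
    field_simp
  rw [← h3, ← expect_add_distrib]
  refine expect_le_expect fun x _ => ?_
  split_ifs with h
  · have := h2 _ h
    rwa [add_sub_cancel] at this
  · simpa using h1 x h

/-- The moment functional. -/
noncomputable def Gm (T P : Finset G) (m j : ℕ) (θ : ℝ) : ℝ :=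
  𝔼 x, (1 + θ * rho T.card m (rr T P x)) ^ j

lemma Gm_step (T A Z P : Finset G) (hP : P ⊆ A) (b : G) {m m' j : ℕ} (hm : 1 ≤ m)
    (hmm : m ≤ m') (hm' : m' ≤ T.card) {θ lam K₁ Λ δ : ℝ} (hθ : 0 ≤ θ)
    (hlam : (j + 1) * θ ≤ lam) (hK₁ : (1 + 2 * θ) ^ j ≤ K₁)
    (hΛ : (1 + θ / yy T.card m' 1) ^ j ≤ Λ) (hδ : (tbad T A Z).card * Λ / T.card ≤ δ) :
    Gm T (insert b P) m' (j + 1) θ ≤ Gm T P m' (j + 1) θ
      + T.card / Fintype.card G
        * (lam * K₁ * (tr Λ (Ft T m (fun _ : Fin j => θ / yy T.card m 1) Z P b) + δ)) := by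
  have hn : 1 ≤ T.card := hm.trans (hmm.trans hm')
  have hT : T.Nonempty := card_pos.1 hn
  have : Nonempty T := hT.to_subtype
  have hn' : (0 : ℝ) < T.card := by exact_mod_cast hn
  have hm1 : 1 ≤ m' := hm.trans hmm
  have hΛ' : ∀ r ≤ T.card, (1 + θ * rho T.card m' r) ^ j ≤ Λ := by
    intro r hr
    refine le_trans (pow_le_pow_left₀ (by have := rho_nonneg m' hr hn; positivity) ?_ j) hΛ
    have := mul_le_mul_of_nonneg_left (rho_le m' hr hn) hθ
    rw [mul_one_div] at this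
    linarith
  have hΛ0 : 0 ≤ Λ := le_trans (by rw [rho_zero]; positivity) (hΛ' 0 (Nat.zero_le _))
  have hK0 : 0 ≤ K₁ := le_trans (by positivity) hK₁
  have hlam0 : 0 ≤ lam := le_trans (by positivity) hlam
  have hc : ∀ t, (T ∩ nb Z P b t).card ≤ T.card := fun t => card_le_card inter_subset_left
  set e : G → ℝ := fun t => lam * K₁ * ((1 + θ * rho T.card m' (T ∩ nb Z P b t).card) ^ j
    + if t ∈ tbad T A Z then Λ else 0) with he
  have h1 := expect_le_add_translate T hT b
    (fun x => (1 + θ * rho T.card m' (rr T (insert b P) x)) ^ (j + 1))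
    (fun x => (1 + θ * rho T.card m' (rr T P x)) ^ (j + 1)) e
    (fun x hx => by simp only [rr_insert_of_notMem T P b x hx, le_refl])
    (by
      intro t ht
      set ρ₀ := rho T.card m' (rr T P (b + t)) with hρ₀
      have hρ0 : 0 ≤ ρ₀ := rho_nonneg m' (rr_le _ _ _) hn
      have h2 : rho T.card m' (rr T (insert b P) (b + t)) ≤ ρ₀ + 1 :=
        rho_succ_le (rr_insert_le _ _ _ _) (rr_le _ _ _) (rr_le _ _ _) hm1 hm'
      have h3 : (1 + θ * rho T.card m' (rr T (insert b P) (b + t))) ^ (j + 1)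
          ≤ (1 + θ * (ρ₀ + 1)) ^ (j + 1) :=
        pow_le_pow_left₀ (by have := rho_nonneg m' (rr_le T (insert b P) (b + t)) hn; positivity)
          (by gcongr) _
      have h4 := pow_succ_sub_le (x := 1 + θ * ρ₀) (y := 1 + θ * (ρ₀ + 1)) (by positivity)
        (by nlinarith) j
      have h5 : (1 + θ * (ρ₀ + 1)) ^ j ≤ K₁ * ((1 + θ * rho T.card m' (T ∩ nb Z P b t).card) ^ j
          + if t ∈ tbad T A Z then Λ else 0) := by
        have hρ1 := rho_nonneg m' (hc t) hn
        split_ifs with hb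
        · have h6 : (1 + θ * (ρ₀ + 1)) ^ j ≤ ((1 + 2 * θ) * (1 + θ * ρ₀)) ^ j :=
            pow_le_pow_left₀ (by positivity) (by nlinarith [mul_nonneg hθ (mul_nonneg hθ hρ0)]) j
          rw [mul_pow] at h6
          have h7 : (1 + 2 * θ) ^ j * (1 + θ * ρ₀) ^ j ≤ K₁ * Λ :=
            mul_le_mul hK₁ (hΛ' _ (rr_le _ _ _)) (by positivity) hK0
          have h8 : 0 ≤ K₁ * (1 + θ * rho T.card m' (T ∩ nb Z P b t).card) ^ j := by positivity
          nlinarith
        · have h6 : ρ₀ ≤ rho T.card m' (T ∩ nb Z P b t).card + 1 :=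
            rho_succ_le (rr_le_nb_add_one T A Z P hP b t ht hb) (rr_le _ _ _) (hc t) hm1 hm'
          set ρ₁ := rho T.card m' (T ∩ nb Z P b t).card
          have h7 : (1 + θ * (ρ₀ + 1)) ^ j ≤ ((1 + 2 * θ) * (1 + θ * ρ₁)) ^ j :=
            pow_le_pow_left₀ (by positivity) (by
              have := mul_le_mul_of_nonneg_left h6 hθ
              nlinarith [mul_nonneg hθ (mul_nonneg hθ hρ1)]) j
          rw [mul_pow] at h7
          rw [add_zero]
          exact h7.trans (mul_le_mul_of_nonneg_right hK₁ (by positivity))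
      have h9 : (j + 1) * (1 + θ * (ρ₀ + 1) - (1 + θ * ρ₀)) * (1 + θ * (ρ₀ + 1)) ^ j
          ≤ lam * (K₁ * ((1 + θ * rho T.card m' (T ∩ nb Z P b t).card) ^ j
          + if t ∈ tbad T A Z then Λ else 0)) := by
        refine mul_le_mul ?_ h5 (by positivity) hlam0
        have : (1 + θ * (ρ₀ + 1) - (1 + θ * ρ₀)) = θ := by ring
        rw [this]; exact hlam
      simp only [he]
      linarith)
  refine h1.trans ?_
  unfold Gm
  gcongr
  simp only [he]
  rw [← mul_expect, expect_add_distrib]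
  gcongr
  · refine le_tr ?_ (expect_le univ_nonempty fun t _ => hΛ' _ (hc t))
    unfold Ft
    refine expect_le_expect fun t _ => ?_
    rw [psi_const]
    refine pow_le_pow_left₀ (by have := rho_nonneg m' (hc t) hn; positivity) ?_ j
    have := mul_le_mul_of_nonneg_left (rho_anti hmm (hc t) hm hm') hθ
    linarith
  · refine le_trans (le_of_eq ?_) hδ
    rw [expect_coe T (fun t => if t ∈ tbad T A Z then Λ else 0), ← sum_filter, filter_mem_eq_inter,
      inter_eq_right.2 (show tbad T A Z ⊆ T from filter_subset _ _), sum_const, nsmul_eq_mul]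

lemma expect_tr_Ft_le_Gm (T Z P : Finset G) {m j : ℕ} (hm : 1 ≤ m) (hm' : m ≤ T.card) {θ : ℝ}
    (hθ : 0 ≤ θ) (Λ : ℝ) :
    𝔼 x, tr Λ (Ft T m (fun _ : Fin j => θ / yy T.card m 1) Z P x) ≤ Gm T P m j θ := by
  have hn : 1 ≤ T.card := hm.trans hm'
  have hT : T.Nonempty := card_pos.1 hn
  unfold Gm
  rw [← expect_add_right T hT (fun x => (1 + θ * rho T.card m (rr T P x)) ^ j)]
  refine expect_le_expect fun x _ => ?_
  have hc : ∀ t, (T ∩ nb Z P x t).card ≤ T.card := fun t => card_le_card inter_subset_left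
  refine (tr_le_self _ ?_).trans ?_
  · refine expect_nonneg fun t _ => ?_
    rw [psi_const]
    have := rho_nonneg m (hc t) hn
    positivity
  · refine expect_le_expect fun t _ => ?_
    rw [psi_const]
    refine pow_le_pow_left₀ (by have := rho_nonneg m (hc t) hn; positivity) ?_ j
    have := mul_le_mul_of_nonneg_left
      (rho_mono m (card_inter_nb_le T Z P P Subset.rfl x t) (rr_le _ _ _) hn) hθ
    linarith

/-- Moment bounds, by induction on the order. -/
lemma Gm_bound {k : ℕ} (a : Fin k → G) (T Z : Finset G) (J : ℕ) (m : ℕ → ℕ) (Λ : ℕ → ℝ)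
    {θ lam K₁ δ c : ℝ} (hm1 : ∀ j ≤ J, 1 ≤ m j) (hmn : ∀ j ≤ J, m j ≤ T.card)
    (hmm : ∀ j < J, m j ≤ m (j + 1)) (hθ : 0 ≤ θ) (hlam : J * θ ≤ lam)
    (hK₁ : (1 + 2 * θ) ^ J ≤ K₁) (hΛ : ∀ j < J, (1 + θ / yy T.card (m (j + 1)) 1) ^ j ≤ Λ j)
    (hδ0 : 0 ≤ δ) (hδ : ∀ j < J, (tbad T (univ.image a) Z).card * Λ j / T.card ≤ δ)
    (hc : (T.card : ℝ) / Fintype.card G * k ≤ c) (hsmall : c * (lam * K₁) * (2 * δ) ≤ 1)
    (htr : ∀ j < J, ∀ i ≤ k, ∑ l : Fin k, (if (l : ℕ) < i then (1 : ℝ) else 0) *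
        tr (Λ j) (Ft T (m j) (fun _ : Fin j => θ / yy T.card (m j) 1) Z (past a l) (a l))
      ≤ 2 * ∑ l : Fin k, (𝔼 x, (if (l : ℕ) < i then (1 : ℝ) else 0) *
        tr (Λ j) (Ft T (m j) (fun _ : Fin j => θ / yy T.card (m j) 1) Z (past a l) x)) + k * δ) :
    ∀ j ≤ J, ∀ i ≤ k, Gm T (past a i) (m j) j θ
      ≤ 2 * (1 + 2 * (lam * K₁) * (T.card / Fintype.card G)) ^ i := by
  set β : ℝ := T.card / Fintype.card G with hβ
  have hβ0 : 0 ≤ β := by positivity
  have hK0 : 0 ≤ K₁ := le_trans (by positivity) hK₁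
  have hlam0 : 0 ≤ lam := le_trans (by positivity) hlam
  set γ := lam * K₁ with hγ
  have hγ0 : 0 ≤ γ := by positivity
  have hone : ∀ i : ℕ, 1 ≤ (1 + 2 * γ * β) ^ i := fun i => one_le_pow₀ (by
    have : 0 ≤ 2 * γ * β := by positivity
    linarith)
  intro j
  induction j with
  | zero =>
    intro _ i _
    have := hone i
    simp only [Gm, pow_zero, Fintype.expect_const]
    linarith
  | succ j ih =>
    intro hj i hi
    have hj' : j < J := hj
    have ih' := ih hj'.le
    set d : ℕ → ℝ := fun l => Gm T (past a l) (m (j + 1)) (j + 1) θ with hd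
    have hd0 : d 0 = 1 := by
      simp only [hd, Gm, past_zero]
      have : ∀ x, rr T ∅ x = 0 := fun x => by simp [rr]
      simp [this, rho_zero]
    have h1 : d i - d 0 = ∑ l : Fin k, (if (l : ℕ) < i then (1 : ℝ) else 0) * (d (l + 1) - d l) := by
      rw [sum_fin_ite_lt hi (fun l => d (l + 1) - d l), sum_range_sub]
    have h2 : ∀ l : Fin k, d (l + 1) - d l ≤ β * (γ * (tr (Λ j)
        (Ft T (m j) (fun _ : Fin j => θ / yy T.card (m j) 1) Z (past a l) (a l)) + δ)) := by
      intro l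
      have h3 := Gm_step T (univ.image a) Z (past a l) (past_subset a l) (a l) (j := j)
        (hm1 j hj'.le) (hmm j hj') (hmn (j + 1) hj) (lam := lam) (K₁ := K₁) hθ
        (le_trans (by
          have : ((j + 1 : ℕ) : ℝ) ≤ J := by exact_mod_cast hj
          push_cast at this
          gcongr) hlam)
        (le_trans (pow_le_pow_right₀ (by linarith) hj'.le) hK₁) (hΛ j hj') (hδ j hj')
      simp only [hd]
      rw [past_succ]
      linarith
    have h4 : ∑ l : Fin k, (𝔼 x, (if (l : ℕ) < i then (1 : ℝ) else 0) *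
        tr (Λ j) (Ft T (m j) (fun _ : Fin j => θ / yy T.card (m j) 1) Z (past a l) x))
        ≤ ∑ l ∈ range i, 2 * (1 + 2 * γ * β) ^ l := by
      rw [← sum_fin_ite_lt hi (fun l => 2 * (1 + 2 * γ * β) ^ l)]
      refine sum_le_sum fun l _ => ?_
      rw [← mul_expect]
      refine mul_le_mul_of_nonneg_left ?_ (by split_ifs <;> norm_num)
      exact (expect_tr_Ft_le_Gm T Z _ (hm1 j hj'.le) (hmn j hj'.le) hθ _).trans (ih' l l.2.le)
    have h5 : (∑ l ∈ range i, (1 + 2 * γ * β) ^ l) * (2 * γ * β) = (1 + 2 * γ * β) ^ i - 1 := by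
      have := geom_sum_mul (1 + 2 * γ * β) i
      rwa [add_sub_cancel_left] at this
    have h6 : ∑ l : Fin k, (if (l : ℕ) < i then (1 : ℝ) else 0) * (d (l + 1) - d l)
        ≤ β * γ * (∑ l : Fin k, (if (l : ℕ) < i then (1 : ℝ) else 0) *
          tr (Λ j) (Ft T (m j) (fun _ : Fin j => θ / yy T.card (m j) 1) Z (past a l) (a l))
          + k * δ) := by
      have e : (k : ℝ) * δ = ∑ _l : Fin k, δ := by simp
      rw [e, ← sum_add_distrib, mul_sum]
      refine sum_le_sum fun l _ => ?_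
      have h7 := h2 l
      have h8 : 0 ≤ β * γ * δ := by positivity
      split_ifs
      · linarith
      · linarith
    have h7 := htr j hj' i hi
    rw [← mul_sum] at h4
    have h8 : β * γ * (∑ l : Fin k, (if (l : ℕ) < i then (1 : ℝ) else 0) *
          tr (Λ j) (Ft T (m j) (fun _ : Fin j => θ / yy T.card (m j) 1) Z (past a l) (a l))
          + k * δ) ≤ β * γ * (2 * (2 * ∑ l ∈ range i, (1 + 2 * γ * β) ^ l) + k * δ + k * δ) := by
      gcongr
      linarith
    have h9 : β * k * γ * (2 * δ) ≤ c * γ * (2 * δ) := by gcongr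
    show d i ≤ _
    nlinarith

/-- Proportion of uncovered points. -/
noncomputable def unc (T P : Finset G) : ℝ := 𝔼 x, if rr T P x = 0 then (1 : ℝ) else 0

lemma unc_step (T Z P : Finset G) (b : G) {m J : ℕ} (hm : 1 ≤ m) (hJ : J * m ≤ T.card)
    (hJ0 : 0 < J) (hev : Even J) :
    unc T P ≤ unc T (insert b P)
      + T.card / Fintype.card G * tr 1 (Ft T m (kap T.card m J) Z P b) := by
  have hmn : m ≤ T.card := le_trans (Nat.le_mul_of_pos_left _ hJ0) hJ
  have hn : 1 ≤ T.card := hm.trans hmn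
  have hT : T.Nonempty := card_pos.1 hn
  have : Nonempty T := hT.to_subtype
  have h1 := expect_le_add_translate T hT b (fun x => if rr T P x = 0 then (1 : ℝ) else 0)
    (fun x => if rr T (insert b P) x = 0 then (1 : ℝ) else 0)
    (fun t => if rr T P (b + t) = 0 then (1 : ℝ) else 0)
    (fun x hx => by simp only [rr_insert_of_notMem T P b x hx, le_refl])
    (fun t _ => by split_ifs <;> norm_num)
  refine h1.trans ?_
  unfold unc
  gcongr
  refine le_tr ?_ (expect_le univ_nonempty fun t _ => by split_ifs <;> norm_num)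
  refine expect_le_expect fun t _ => ?_
  refine le_trans ?_ (psi_kap_bounds hm hJ hJ0 hev (card_le_card inter_subset_left)).1
  have := card_inter_nb_le T Z P P Subset.rfl b t
  by_cases h : rr T P (b + t) = 0
  · rw [if_pos h, if_pos (by omega)]
  · rw [if_neg h]; split_ifs <;> norm_num

lemma expect_tr_Ft_kap_le (T Z P : Finset G) {m J : ℕ} (hm : 1 ≤ m) (hJ : J * m ≤ T.card)
    (hJ0 : 0 < J) (hev : Even J) :
    𝔼 x, tr 1 (Ft T m (kap T.card m J) Z P x)
      ≤ T.card * Z.card / Fintype.card G + (unc T P + Gm T P m J (12 / J) / 2 ^ J) := by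
  have hmn : m ≤ T.card := le_trans (Nat.le_mul_of_pos_left _ hJ0) hJ
  have hn : 1 ≤ T.card := hm.trans hmn
  have hT : T.Nonempty := card_pos.1 hn
  set W := (T ×ˢ Z).image fun p => p.1 - p.2 with hW
  have h1 : 𝔼 x : G, (if x ∈ W then (1 : ℝ) else 0) ≤ T.card * Z.card / Fintype.card G := by
    rw [Fintype.expect_eq_sum_div_card, sum_boole, filter_mem_eq_inter, univ_inter]
    gcongr
    rw [← Nat.cast_mul, ← card_product]
    exact_mod_cast card_image_le
  have h2 : 𝔼 x : G, 𝔼 t : T, psi T.card m (kap T.card m J) (rr T P (x + t))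
      ≤ unc T P + Gm T P m J (12 / J) / 2 ^ J := by
    rw [expect_add_right T hT (fun x => psi T.card m (kap T.card m J) (rr T P x))]
    unfold unc Gm
    rw [expect_div, ← expect_add_distrib]
    exact expect_le_expect fun x _ => (psi_kap_bounds hm hJ hJ0 hev (rr_le _ _ _)).2
  refine le_trans ?_ (add_le_add h1 h2)
  rw [← expect_add_distrib]
  refine expect_le_expect fun x _ => ?_
  have hnn : ∀ r ≤ T.card, 0 ≤ psi T.card m (kap T.card m J) r := fun r hr =>
    le_trans (by split_ifs <;> norm_num) (psi_kap_bounds hm hJ hJ0 hev hr).1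
  have h3 : 0 ≤ 𝔼 t : T, psi T.card m (kap T.card m J) (rr T P (x + t)) :=
    expect_nonneg fun t _ => hnn _ (rr_le _ _ _)
  split_ifs with h
  · have := tr_le zero_le_one (Ft T m (kap T.card m J) Z P x)
    linarith
  · have h4 : ∀ t' ∈ T, t' - x ∉ Z := fun t' ht' hz =>
      h (mem_image.2 ⟨(t', t' - x), mem_product.2 ⟨ht', hz⟩, by simp⟩)
    have h5 : Ft T m (kap T.card m J) Z P x
        = 𝔼 t : T, psi T.card m (kap T.card m J) (rr T P (x + t)) :=
      expect_congr rfl fun t _ => by rw [card_inter_nb_eq T Z P x t h4]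
    rw [zero_add, h5]
    exact tr_le_self _ h3

/-- Lower bound for the uncovered proportion. -/
lemma unc_bound {k : ℕ} (a : Fin k → G) (T Z : Finset G) {m J : ℕ} (hm : 1 ≤ m)
    (hJ : J * m ≤ T.card) (hJ0 : 0 < J) (hev : Even J) {δ c Gb : ℝ} (hδ0 : 0 ≤ δ) (hGb : 0 ≤ Gb)
    (hβ : 2 * ((T.card : ℝ) / Fintype.card G) ≤ 1)
    (hc : (T.card : ℝ) / Fintype.card G * k ≤ c)
    (hZ : (T.card : ℝ) * Z.card / Fintype.card G ≤ δ)
    (hG : ∀ i ≤ k, Gm T (past a i) m J (12 / J) ≤ Gb)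
    (htr : ∑ l : Fin k, (1 - 2 * ((T.card : ℝ) / Fintype.card G)) ^ (k - 1 - l) *
        tr 1 (Ft T m (kap T.card m J) Z (past a l) (a l))
      ≤ 2 * ∑ l : Fin k, (𝔼 x, (1 - 2 * ((T.card : ℝ) / Fintype.card G)) ^ (k - 1 - l) *
        tr 1 (Ft T m (kap T.card m J) Z (past a l) x)) + k * δ) :
    (1 - 2 * ((T.card : ℝ) / Fintype.card G)) ^ k - c * (3 * δ + 2 * (Gb / 2 ^ J))
      ≤ unc T (univ.image a) := by
  set β : ℝ := T.card / Fintype.card G with hβdef
  have hβ0 : 0 ≤ β := by positivity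
  set ρ := 1 - 2 * β with hρ
  have hρ0 : 0 ≤ ρ := by linarith
  have hρ1 : ρ ≤ 1 := by linarith
  set v : ℕ → ℝ := fun l => ρ ^ (k - l) * unc T (past a l) with hv
  have hv0 : v 0 = ρ ^ k := by
    simp only [hv, unc, past_zero]
    have : ∀ x, rr T ∅ x = 0 := fun x => by simp [rr]
    simp [this]
  have hvk : v k = unc T (univ.image a) := by simp [hv, past_full]
  have h1 : v k - v 0 = ∑ l : Fin k, (v (l + 1) - v l) := by
    rw [Fin.sum_univ_eq_sum_range (fun l => v (l + 1) - v l) k, sum_range_sub]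
  have h2 : ∀ l : Fin k, β * (2 * (ρ ^ (k - 1 - l) * unc T (past a l))
      - ρ ^ (k - 1 - l) * tr 1 (Ft T m (kap T.card m J) Z (past a l) (a l)))
      ≤ v (l + 1) - v l := by
    intro l
    have h3 := unc_step T Z (past a l) (a l) hm hJ hJ0 hev
    rw [← past_succ, ← hβdef] at h3
    have e1 : k - (l + 1) = k - 1 - l := by omega
    have e2 : k - l = k - 1 - l + 1 := by have := l.2; omega
    simp only [hv]
    rw [e1, e2, pow_succ]
    have h4 := mul_le_mul_of_nonneg_left h3 (pow_nonneg hρ0 (k - 1 - l))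
    have e3 : ρ ^ (k - 1 - l) * ρ * unc T (past a l)
        = ρ ^ (k - 1 - l) * unc T (past a l) - 2 * β * (ρ ^ (k - 1 - l) * unc T (past a l)) := by
      rw [hρ]; ring
    rw [e3]
    linarith
  have h3 : ∑ l : Fin k, (𝔼 x, ρ ^ (k - 1 - l) * tr 1 (Ft T m (kap T.card m J) Z (past a l) x))
      ≤ ∑ l : Fin k, ρ ^ (k - 1 - l) * unc T (past a l) + k * (δ + Gb / 2 ^ J) := by
    have e : (k : ℝ) * (δ + Gb / 2 ^ J) = ∑ _l : Fin k, (δ + Gb / 2 ^ J) := by
      rw [sum_const, card_univ, Fintype.card_fin, nsmul_eq_mul]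
    rw [e, ← sum_add_distrib]
    refine sum_le_sum fun l _ => ?_
    rw [← mul_expect]
    have h4 := expect_tr_Ft_kap_le T Z (past a l) hm hJ hJ0 hev
    have h5 : Gm T (past a l) m J (12 / J) / 2 ^ J ≤ Gb / 2 ^ J := by
      gcongr; exact hG l l.2.le
    have h6 : 0 ≤ ρ ^ (k - 1 - l) := pow_nonneg hρ0 _
    have h7 : ρ ^ (k - 1 - l) ≤ 1 := pow_le_one₀ hρ0 hρ1
    have h8 := mul_le_mul_of_nonneg_left
      (h4.trans (show _ ≤ unc T (past a l) + (δ + Gb / 2 ^ J) by linarith)) h6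
    have h9 := mul_le_of_le_one_left (show 0 ≤ δ + Gb / 2 ^ J by positivity) h7
    linarith
  have h4 := sum_le_sum fun l (_ : l ∈ (univ : Finset (Fin k))) => h2 l
  rw [← h1, ← mul_sum, sum_sub_distrib, ← mul_sum, hv0, hvk] at h4
  have h5 : β * (-(k * (3 * δ + 2 * (Gb / 2 ^ J))))
      ≤ β * (2 * ∑ l : Fin k, ρ ^ (k - 1 - l) * unc T (past a l)
      - ∑ l : Fin k, ρ ^ (k - 1 - l) * tr 1 (Ft T m (kap T.card m J) Z (past a l) (a l))) := by
    refine mul_le_mul_of_nonneg_left ?_ hβ0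
    linarith
  have h6 : β * k * (3 * δ + 2 * (Gb / 2 ^ J)) ≤ c * (3 * δ + 2 * (Gb / 2 ^ J)) := by gcongr
  nlinarith

end Pool.Agent.Lib.Cov39
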