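import Pool.Agent.Lib.MP_e20aca_co.Core

/-!
The event bounding the popularity of differences, and numerical lemmas on the parameters.
-/

set_option autoImplicit false

open Finset
open scoped BigOperators

namespace Pool.Agent.Lib.Cov39

section diff

variable {G : Type*} [DecidableEq G] [Fintype G] [AddCommGroup G]

/-- The good event for differences. -/
def Good1 {k : ℕ} (a : Fin k → G) (L : ℝ) : Prop :=
  ∀ d : G, ∑ l : Fin k, (if a l + d ∈ past a l then (1 : ℝ) else 0)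
    ≤ 2 * ∑ l : Fin k, (𝔼 x, if x + d ∈ past a l then (1 : ℝ) else 0) + 1 * L

open Classical in
lemma card_not_good1 (k : ℕ) (L : ℝ) :
    (((univ : Finset (Fin k → G)).filter (fun a => ¬ Good1 a L)).card : ℝ)
      ≤ Fintype.card G * (Real.exp (-L) * (Fintype.card G : ℝ) ^ k) := by
  set bad : G → Finset (Fin k → G) := fun d => univ.filter (fun a =>
      2 * ∑ l : Fin k, (𝔼 x, if x + d ∈ past a l then (1 : ℝ) else 0) + 1 * L
        < ∑ l : Fin k, (if a l + d ∈ past a l then (1 : ℝ) else 0)) with hbad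
  have hsub : (univ : Finset (Fin k → G)).filter (fun a => ¬ Good1 a L) ⊆ univ.biUnion bad := by
    intro a ha
    have ha' := (mem_filter.1 ha).2
    unfold Good1 at ha'
    push Not at ha'
    obtain ⟨d, h⟩ := ha'
    exact mem_biUnion.2 ⟨d, mem_univ _, mem_filter.2 ⟨mem_univ _, h⟩⟩
  have hb : ∀ d, ((bad d).card : ℝ) ≤ Real.exp (-L) * (Fintype.card G : ℝ) ^ k := fun d =>
    seq_tail k (fun _ P x => if x + d ∈ P then (1 : ℝ) else 0) 1 L one_pos
      (fun l P x => by split_ifs <;> norm_num) (fun l P x => by split_ifs <;> norm_num)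
  calc _ ≤ ((univ.biUnion bad).card : ℝ) := by exact_mod_cast card_le_card hsub
    _ ≤ ∑ d, ((bad d).card : ℝ) := by exact_mod_cast card_biUnion_le
    _ ≤ ∑ _d : G, Real.exp (-L) * (Fintype.card G : ℝ) ^ k := sum_le_sum fun d _ => hb d
    _ = _ := by rw [sum_const, card_univ, nsmul_eq_mul]

lemma diff_le_of_good1 {k : ℕ} (a : Fin k → G) (L : ℝ) (hG : Good1 a L)
    (hk : k ^ 2 ≤ Fintype.card G) (d : G) (hd : d ≠ 0) :
    ((((univ.image a).filter fun b => b + d ∈ univ.image a).card : ℕ) : ℝ) ≤ 2 * (2 + L) := by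
  have hN : (0 : ℝ) < Fintype.card G := by exact_mod_cast Fintype.card_pos
  have h1 : ∀ d : G, ((univ.filter fun l : Fin k => a l + d ∈ past a l).card : ℝ) ≤ 2 + L := by
    intro d
    have h2 := hG d
    rw [sum_boole] at h2
    have h3 : ∑ l : Fin k, (𝔼 x, if x + d ∈ past a l then (1 : ℝ) else 0) ≤ 1 := by
      calc _ ≤ ∑ _l : Fin k, (k : ℝ) / Fintype.card G := by
            refine sum_le_sum fun l _ => ?_
            have e : ∑ x, (if x + d ∈ past a l then (1 : ℝ) else 0)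
                = ∑ x, (if x ∈ past a l then (1 : ℝ) else 0) :=
              Equiv.sum_comp (Equiv.addRight d) (fun x => if x ∈ past a l then (1 : ℝ) else 0)
            rw [Fintype.expect_eq_sum_div_card, e, sum_boole, filter_mem_eq_inter, univ_inter]
            gcongr
            exact card_past_le a l
        _ = (k : ℝ) ^ 2 / Fintype.card G := by
            rw [sum_const, card_univ, Fintype.card_fin, nsmul_eq_mul]; ring
        _ ≤ 1 := by rw [div_le_one hN]; exact_mod_cast hk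
    linarith
  have hsub : ((univ.image a).filter fun b => b + d ∈ univ.image a)
      ⊆ (univ.filter fun l : Fin k => a l + d ∈ past a l).image a
        ∪ (univ.filter fun l : Fin k => a l + -d ∈ past a l).image (fun l => a l + -d) := by
    intro b hb
    obtain ⟨h2, h3⟩ := mem_filter.1 hb
    obtain ⟨i, -, rfl⟩ := mem_image.1 h2
    obtain ⟨i', -, h4⟩ := mem_image.1 h3
    rcases lt_trichotomy (i' : ℕ) i with h | h | h
    · exact mem_union_left _ (mem_image.2 ⟨i, mem_filter.2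
        ⟨mem_univ _, (mem_past _ _ _).2 ⟨i', h, h4⟩⟩, rfl⟩)
    · rw [Fin.ext h] at h4
      exact absurd (by simpa using h4.symm) hd
    · have h5 : a i' + -d = a i := by rw [h4]; abel
      exact mem_union_right _ (mem_image.2 ⟨i', mem_filter.2
        ⟨mem_univ _, (mem_past _ _ _).2 ⟨i, h, h5.symm⟩⟩, h5⟩)
  have h2 := (card_le_card hsub).trans ((card_union_le _ _).trans
    (add_le_add card_image_le card_image_le))
  have h3 : ((((univ.image a).filter fun b => b + d ∈ univ.image a).card : ℕ) : ℝ)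
      ≤ ((univ.filter fun l : Fin k => a l + d ∈ past a l).card : ℝ)
        + ((univ.filter fun l : Fin k => a l + -d ∈ past a l).card : ℝ) := by exact_mod_cast h2
  linarith [h1 d, h1 (-d)]

end diff

lemma slack_bound {k n u V c J j m B Q Λ E : ℝ} (hu : 48 ≤ u) (hJu : 4 * J ≤ u) (hj0 : 0 ≤ j)
    (hj : j ≤ J) (hJc : (J + 1) * c ≤ u) (hn : n = c * k) (hc : 1 ≤ c) (hV : u ^ 5 ≤ V)
    (hk : V ^ 17 ≤ k) (hQV : Q ≤ V) (hQ : 1 ≤ Q) (hΛQ : Λ * u ^ 3 ≤ Q) (hΛ : 0 ≤ Λ)
    (hm1 : m ≤ n / Q) (hm2 : n / (2 * Q) ≤ m) (hB0 : 0 ≤ B) (hB : B ≤ V) (hE0 : 0 ≤ E)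
    (hE : E ≤ k * u ^ 2) :
    Λ * (((J + 1) * m + V ^ 7 + 2) * u) + (3 * k * (1 / u + 8 * B ^ 2 / m / (1 / u))
      + 4 * j * B ^ 2 * m * (k / V ^ 3) / n ^ 2 / (1 / u) * E) ≤ k * (7 / u) := by
  have hu0 : 0 < u := by linarith
  have hu1 : 1 ≤ u := by linarith
  have hJ0 : 0 ≤ J := hj0.trans hj
  have hu5 : u ≤ u ^ 5 := le_self_pow₀ hu1 (by norm_num)
  have hV1 : 1 ≤ V := by linarith
  have hV0 : 0 < V := by linarith
  have hk1 : 1 ≤ k := (one_le_pow₀ hV1).trans hk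
  have hk0 : 0 < k := by linarith
  have hkn : k ≤ n := by rw [hn]; nlinarith
  have hn0 : 0 < n := by linarith
  have hQ0 : 0 < Q := by linarith
  have hm0 : 0 < m := lt_of_lt_of_le (by positivity) hm2
  have hVk : ∀ i ≤ 17, V ^ i ≤ k := fun i hi => (pow_le_pow_right₀ hV1 hi).trans hk
  have hΛV : Λ ≤ V := by
    have : Λ ≤ Λ * u ^ 3 := le_mul_of_one_le_right hΛ (one_le_pow₀ hu1)
    linarith
  have huV : u ≤ V := by linarith
  have h1 : Λ * ((J + 1) * m * u) ≤ k / u := by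
    rw [le_div_iff₀ hu0]
    have h2 : m * Q ≤ c * k := by rw [← hn]; exact (le_div_iff₀ hQ0).1 hm1
    have h3 : Λ * ((J + 1) * m * u) * u * u = (J + 1) * (m * (Λ * u ^ 3)) := by ring
    have h4 : (J + 1) * (m * (Λ * u ^ 3)) ≤ (J + 1) * (c * k) :=
      mul_le_mul_of_nonneg_left ((mul_le_mul_of_nonneg_left hΛQ hm0.le).trans h2) (by linarith)
    have h5 : (J + 1) * (c * k) ≤ k * u := by nlinarith
    exact le_of_mul_le_mul_right (by linarith) hu0
  have h2 : Λ * ((V ^ 7 + 2) * u) ≤ k / u := by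
    rw [le_div_iff₀ hu0]
    have h3 : V ^ 7 + 2 ≤ V ^ 7 * V := by
      have : 1 ≤ V ^ 7 := one_le_pow₀ hV1
      nlinarith
    calc _ ≤ V * (V ^ 7 * V * V) * V := by gcongr
      _ = V ^ 11 := by ring
      _ ≤ k := hVk 11 (by norm_num)
  have h3 : 3 * k * (8 * B ^ 2 / m / (1 / u)) ≤ k / u := by
    have h4 : k / (2 * V) ≤ m := le_trans (by gcongr) hm2
    have h5 : 48 * u ^ 2 ≤ V := by
      have : 48 * u ^ 2 ≤ u * u ^ 2 := by gcongr
      have : u ^ 3 ≤ u ^ 5 := pow_le_pow_right₀ hu1 (by norm_num)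
      nlinarith
    calc _ ≤ 3 * k * (8 * V ^ 2 / (k / (2 * V)) / (1 / u)) := by gcongr
      _ = (48 * u ^ 2) * V ^ 3 / u := by field_simp; ring
      _ ≤ V * V ^ 3 / u := by gcongr
      _ = V ^ 4 / u := by ring
      _ ≤ k / u := by gcongr; exact hVk 4 (by norm_num)
  have h4 : 4 * j * B ^ 2 * m * (k / V ^ 3) / n ^ 2 / (1 / u) * E ≤ k / u := by
    have h5 : m ≤ n := hm1.trans (div_le_self hn0.le hQ)
    calc _ ≤ u * V ^ 2 * n * (n / V ^ 3) / n ^ 2 / (1 / u) * (k * u ^ 2) := by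
          gcongr
          linarith
      _ = k * u ^ 5 / V / u := by field_simp
      _ ≤ k * V / V / u := by gcongr
      _ = k / u := by field_simp
  have e1 : Λ * (((J + 1) * m + V ^ 7 + 2) * u)
      = Λ * ((J + 1) * m * u) + Λ * ((V ^ 7 + 2) * u) := by ring
  have e2 : 3 * k * (1 / u + 8 * B ^ 2 / m / (1 / u))
      = 3 * (k / u) + 3 * k * (8 * B ^ 2 / m / (1 / u)) := by ring
  have e3 : k * (7 / u) = 7 * (k / u) := by ring
  rw [e1, e2, e3]
  linarith

lemma exists_scale (M u₀ : ℕ) :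
    ∃ k₀ : ℕ, ∀ k ≥ k₀, ∃ u : ℕ, u₀ ≤ u ∧ 4 * k ^ 2 ≤ 2 ^ u ∧ u ^ M ≤ k := by
  have h := tendsto_pow_const_div_const_pow_of_one_lt (2 * M) (r := 2) one_lt_two
  have h2 := h.eventually (gt_mem_nhds (show (0 : ℝ) < 1 / 8 by norm_num))
  obtain ⟨u₁, hu₁⟩ := Filter.eventually_atTop.1 h2
  refine ⟨2 ^ (max u₀ u₁), fun k hk => ⟨Nat.log 2 (4 * k ^ 2) + 1, ?_, ?_, ?_⟩⟩
  · have hk0 : 0 < k := lt_of_lt_of_le (by positivity) hk
    have : max u₀ u₁ ≤ Nat.log 2 (4 * k ^ 2) :=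
      Nat.le_log_of_pow_le one_lt_two (le_trans hk (by nlinarith))
    omega
  · exact (Nat.lt_pow_succ_log_self one_lt_two _).le
  · have hk0 : 0 < k := lt_of_lt_of_le (by positivity) hk
    have h3 : max u₀ u₁ ≤ Nat.log 2 (4 * k ^ 2) :=
      Nat.le_log_of_pow_le one_lt_two (le_trans hk (by nlinarith))
    set w := Nat.log 2 (4 * k ^ 2)
    have h4 := hu₁ (w + 1) (by omega)
    have h5 : 2 ^ w ≤ 4 * k ^ 2 := Nat.pow_log_le_self 2 (by positivity)
    rw [div_lt_div_iff₀ (by positivity) (by norm_num)] at h4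
    have h6 : (w + 1) ^ (2 * M) * 8 < 1 * 2 ^ (w + 1) := by exact_mod_cast h4
    have h7 : ((w + 1) ^ M) ^ 2 ≤ k ^ 2 := by
      rw [← pow_mul, mul_comm M 2]
      rw [pow_succ 2 w] at h6
      omega
    exact (Nat.pow_le_pow_iff_left (by norm_num)).1 h7

lemma exp_neg_le_pow {β c : ℝ} {k : ℕ} (h0 : 0 ≤ β) (h1 : 4 * β ≤ 1) (hc : β * k ≤ c) :
    Real.exp (-(4 * c)) ≤ (1 - 2 * β) ^ k := by
  have h2 : Real.exp (-(4 * β)) ≤ 1 - 2 * β := by
    have h3 := Real.add_one_le_exp (4 * β)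
    rw [Real.exp_neg, inv_le_comm₀ (Real.exp_pos _) (by linarith)]
    refine le_trans ?_ h3
    rw [inv_le_iff_one_le_mul₀ (by linarith)]
    nlinarith
  calc _ ≤ Real.exp (k * (-(4 * β))) := Real.exp_le_exp.2 (by nlinarith)
    _ = Real.exp (-(4 * β)) ^ k := Real.exp_nat_mul _ _
    _ ≤ _ := pow_le_pow_left₀ (Real.exp_pos _).le h2 k

lemma one_add_pow_le_exp {x : ℝ} (hx : 0 ≤ x) (i : ℕ) : (1 + x) ^ i ≤ Real.exp (i * x) := by
  rw [Real.exp_nat_mul]
  exact pow_le_pow_left₀ (by linarith) (by linarith [Real.add_one_le_exp x]) i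

lemma pow_le_two_mul_descFactorial (N k : ℕ) (h : k ^ 2 ≤ N) (hN : 0 < N) :
    (N : ℝ) ^ k ≤ 2 * N.descFactorial k := by
  have hN' : (0 : ℝ) < N := by exact_mod_cast hN
  have key : ∀ i ≤ N, (N : ℝ) ^ i * (1 - (i : ℝ) ^ 2 / (2 * N)) ≤ N.descFactorial i := by
    intro i
    induction i with
    | zero => intro _; simp
    | succ i ih =>
      intro hi
      have ih' := ih (by omega)
      rw [Nat.descFactorial_succ, Nat.cast_mul, Nat.cast_sub (by omega)]
      have h1 : (0 : ℝ) ≤ N - i := by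
        have : (i : ℝ) ≤ N := by exact_mod_cast (by omega : i ≤ N)
        linarith
      refine le_trans ?_ (mul_le_mul_of_nonneg_left ih' h1)
      have h2 : (N : ℝ) * (1 - ((i : ℝ) + 1) ^ 2 / (2 * N))
          ≤ (N - i) * (1 - (i : ℝ) ^ 2 / (2 * N)) := by
        have e1 : (N : ℝ) * (1 - ((i : ℝ) + 1) ^ 2 / (2 * N)) = N - ((i : ℝ) + 1) ^ 2 / 2 := by
          field_simp
        have e2 : ((N : ℝ) - i) * (1 - (i : ℝ) ^ 2 / (2 * N))
            = N - i - (i : ℝ) ^ 2 / 2 + i * ((i : ℝ) ^ 2 / (2 * N)) := by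
          field_simp; ring
        rw [e1, e2]
        have : 0 ≤ (i : ℝ) * ((i : ℝ) ^ 2 / (2 * N)) := by positivity
        nlinarith
      have h3 := mul_le_mul_of_nonneg_left h2 (pow_nonneg hN'.le i)
      push_cast
      rw [pow_succ]
      nlinarith
  have h1 := key k (le_trans (Nat.le_self_pow (by norm_num) k) h)
  have h2 : (k : ℝ) ^ 2 / (2 * N) ≤ 1 / 2 := by
    rw [div_le_div_iff₀ (by positivity) (by norm_num)]
    have : (k : ℝ) ^ 2 ≤ N := by exact_mod_cast h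
    linarith
  have h3 : (0 : ℝ) ≤ (N : ℝ) ^ k := by positivity
  nlinarith

end Pool.Agent.Lib.Cov39
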