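import Pool.Agent.Lib.MP_e20aca_co.Main

/-!
From random sequences to random `k`-subsets, and the case of `Fin p`.
-/

set_option autoImplicit false

open Finset
open scoped BigOperators

namespace Pool.Agent.Lib.Cov39

lemma exists_order (c : ℕ) : ∃ J : ℕ, Even J ∧ 0 < J ∧
    c * (2 * (2 * Real.exp (24 * Real.exp 24 * c) / 2 ^ J)) ≤ Real.exp (-(4 * c)) / 4 := by
  set X : ℝ := 16 * c * Real.exp (24 * Real.exp 24 * c) / Real.exp (-(4 * c)) with hX
  obtain ⟨i, hi⟩ := pow_unbounded_of_one_lt X (one_lt_two (α := ℝ))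
  refine ⟨2 * (i + 1), even_two_mul _, by omega, ?_⟩
  have h1 : X ≤ 2 ^ (2 * (i + 1)) := hi.le.trans (pow_le_pow_right₀ one_le_two (by omega))
  rw [hX, div_le_iff₀ (Real.exp_pos _)] at h1
  have h2 : (0 : ℝ) < 2 ^ (2 * (i + 1)) := by positivity
  rw [← mul_div_assoc, ← mul_div_assoc, div_le_div_iff₀ h2 (by norm_num)]
  linarith

/-- Random sequences: with high probability no `c k` translates cover the group. -/
theorem seq_cover_bound (c : ℕ) (hc : 1 ≤ c) (ε : ℝ) (hε : 0 < ε) :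
    ∃ k₀ : ℕ, ∀ k ≥ k₀, ∀ (G : Type) [DecidableEq G] [Fintype G] [AddCommGroup G],
      k ^ 2 ≤ Fintype.card G → Fintype.card G ≤ 4 * k ^ 2 → ∀ S : Finset (Fin k → G),
      (∀ a ∈ S, Function.Injective a ∧ ∃ T : Finset G, T.card ≤ c * k ∧
        ∀ x, ∃ t ∈ T, ∃ b ∈ univ.image a, t + b = x) →
      (S.card : ℝ) ≤ ε * (Fintype.card G : ℝ) ^ k := by
  obtain ⟨J, hev, hJ0, hJ⟩ := exists_order c
  obtain ⟨k₁, hk₁⟩ := exists_scale (DD J * 17) (49 + 4 * J + (J + 1) * c + 11 * c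
    + ⌈168 * Real.exp 24 * c⌉₊ + ⌈84 * c * Real.exp (4 * c)⌉₊ + ⌈2 / ε⌉₊)
  refine ⟨k₁ + J + 2 + 2 * c, fun k hk G _ _ _ hN1 hN2 S hS => ?_⟩
  classical
  obtain ⟨u, hu, hu2, huk⟩ := hk₁ k (by omega)
  have hu6 : ⌈168 * Real.exp 24 * c⌉₊ ≤ u := by omega
  have hu7 : ⌈84 * c * Real.exp (4 * c)⌉₊ ≤ u := by omega
  have hu8 : ⌈2 / ε⌉₊ ≤ u := by omega
  have hN0 : (0 : ℝ) < Fintype.card G := by exact_mod_cast Fintype.card_pos
  have hck : 2 * (c * k) ≤ Fintype.card G := by nlinarith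
  have hN : (Fintype.card G : ℝ) ≤ Real.exp u := by
    have h1 : (Fintype.card G : ℝ) ≤ 2 ^ u := by exact_mod_cast hN2.trans hu2
    refine h1.trans ?_
    rw [← Real.exp_one_pow]
    exact pow_le_pow_left₀ (by norm_num) (by linarith [Real.add_one_le_exp (1 : ℝ)]) u
  have hb := card_not_goodAll (G := G) k (c * k) u J hN hN1 (by omega) (by
    rw [← mul_div_assoc, div_le_one hN0]
    exact_mod_cast hck)
  refine le_trans (Nat.cast_le.2 (card_le_card fun a ha => ?_)) (hb.trans ?_)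
  · rw [mem_filter]
    refine ⟨mem_univ _, fun hg => ?_⟩
    obtain ⟨hinj, T, hT, hcov⟩ := hS a ha
    obtain ⟨T', hTT, hT'⟩ := exists_superset_card_eq hT (by omega : c * k ≤ Fintype.card G)
    obtain ⟨x, hx⟩ := exists_uncovered a hinj T' hT' hg hc hev hJ0 hJ (by omega) (by omega)
      (by omega) (by omega)
      (Nat.ceil_le.1 hu6) (Nat.ceil_le.1 hu7)
      (by rw [← pow_mul]; exact huk) hN1
    obtain ⟨t, ht, b, hb, rfl⟩ := hcov x
    have : t ∈ T'.filter fun t' => t + b - t' ∈ univ.image a :=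
      mem_filter.2 ⟨hTT ht, by simpa using hb⟩
    unfold rr at hx
    rw [card_eq_zero.1 hx] at this
    exact notMem_empty _ this
  · refine mul_le_mul_of_nonneg_right ?_ (by positivity)
    have h1 : 2 / ε ≤ u := Nat.ceil_le.1 hu8
    have h2 := Real.add_one_le_exp (u : ℝ)
    rw [div_le_iff₀ hε] at h1
    rw [Real.exp_neg, ← div_eq_mul_inv, div_le_iff₀ (Real.exp_pos _)]
    nlinarith

/-- Random `k`-subsets: with high probability no `c k` translates cover the group. -/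
theorem set_cover_bound (c : ℕ) (hc : 1 ≤ c) (ε : ℝ) (hε : 0 < ε) :
    ∃ k₀ : ℕ, ∀ k ≥ k₀, ∀ (G : Type) [DecidableEq G] [Fintype G] [AddCommGroup G],
      k ^ 2 ≤ Fintype.card G → Fintype.card G ≤ 4 * k ^ 2 → ∀ S : Finset (Finset G),
      (∀ A ∈ S, A.card = k ∧ ∃ T : Finset G, T.card ≤ c * k ∧
        ∀ x, ∃ t ∈ T, ∃ b ∈ A, t + b = x) →
      (S.card : ℝ) ≤ ε * (Fintype.card G).choose k := by
  obtain ⟨k₀, hk₀⟩ := seq_cover_bound c hc (ε / 2) (by positivity)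
  refine ⟨k₀, fun k hk G _ _ _ hN1 hN2 S hS => ?_⟩
  set S' : Finset (Fin k → G) := univ.filter fun a => Function.Injective a ∧ univ.image a ∈ S
    with hS'
  have h1 := hk₀ k hk G hN1 hN2 S' (fun a ha => by
    obtain ⟨h2, h3⟩ := (mem_filter.1 ha).2
    exact ⟨h2, (hS _ h3).2⟩)
  have h2 : k.factorial * S.card ≤ S'.card := by
    refine mul_card_image_le_card_of_maps_to (f := fun a => univ.image a)
      (fun a ha => (mem_filter.1 ha).2.2) _ fun A hA => ?_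
    have hAk := (hS A hA).1
    have h3 : Fintype.card (Fin k ≃ A) = k.factorial := by
      rw [Fintype.card_equiv (Fintype.equivOfCardEq (by simp [hAk])), Fintype.card_fin]
    rw [← h3, ← card_univ]
    have h4 : ∀ e : Fin k ≃ A, univ.image (fun i => (e i : G)) = A := by
      intro e
      ext y
      simp only [mem_image, mem_univ, true_and]
      exact ⟨by rintro ⟨i, rfl⟩; exact (e i).2, fun hy => ⟨e.symm ⟨y, hy⟩, by simp⟩⟩
    refine card_le_card_of_injOn (fun e i => (e i : G)) (fun e _ => ?_) fun e _ e' _ h => ?_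
    · simp only [hS', coe_filter, mem_filter, mem_univ, true_and, Set.mem_ofPred_eq]
      refine ⟨⟨fun i j h => e.injective (Subtype.ext h), ?_⟩, h4 e⟩
      rw [h4 e]; exact hA
    · ext i
      exact congrFun h i
  have h3 := pow_le_two_mul_descFactorial (Fintype.card G) k hN1 Fintype.card_pos
  rw [Nat.descFactorial_eq_factorial_mul_choose] at h3
  have h4 : (k.factorial : ℝ) * S.card ≤ S'.card := by exact_mod_cast h2
  have h5 : (0 : ℝ) < k.factorial := by exact_mod_cast k.factorial_pos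
  refine le_of_mul_le_mul_left ?_ h5
  push_cast at h3
  have h6 := mul_le_mul_of_nonneg_left h3 (show 0 ≤ ε / 2 by positivity)
  linarith

/-- The case of `Fin p` with `k = ⌊p ^ (1/2)⌋`. -/
theorem fin_cover_bound (C : ℝ) (ε : ℝ) (hε : 0 < ε) :
    ∃ N : ℕ, ∀ p : ℕ, N ≤ p → ∀ S : Finset (Finset (Fin p)),
      (∀ A ∈ S, A.card = ⌊(p : ℝ) ^ (1 / 2 : ℝ)⌋₊ ∧ ∃ T : Finset (Fin p),
        T.card ≤ ⌊C * (p : ℝ) ^ (1 / 2 : ℝ)⌋₊ ∧ ∀ x, ∃ t ∈ T, ∃ b ∈ A, t + b = x) →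
      (S.card : ℝ) / (p.choose ⌊(p : ℝ) ^ (1 / 2 : ℝ)⌋₊ : ℕ) ≤ ε := by
  obtain ⟨k₀, hk₀⟩ := set_cover_bound (⌈2 * C⌉₊ + 1) (by omega) ε hε
  refine ⟨(k₀ + 1) ^ 2, fun p hp S hS => ?_⟩
  have hp0 : 0 < p := lt_of_lt_of_le (by positivity) hp
  have : NeZero p := ⟨hp0.ne'⟩
  have hs : ⌊(p : ℝ) ^ (1 / 2 : ℝ)⌋₊ = p.sqrt := by
    rw [← Real.sqrt_eq_rpow, Real.nat_floor_real_sqrt_eq_nat_sqrt]
  rw [hs] at hS ⊢
  have hk : k₀ + 1 ≤ p.sqrt := Nat.le_sqrt'.2 hp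
  have h1 : p.sqrt ^ 2 ≤ p := Nat.sqrt_le' p
  have h2 : p < (p.sqrt + 1) ^ 2 := Nat.lt_succ_sqrt' p
  have h3 := hk₀ p.sqrt (by omega) (Fin p) (by simpa using h1) (by
    rw [Fintype.card_fin]; nlinarith) S (fun A hA => by
      obtain ⟨h4, T, h5, h6⟩ := hS A hA
      refine ⟨h4, T, h5.trans ?_, h6⟩
      refine Nat.floor_le_of_le ?_
      have h7 : (p : ℝ) ^ (1 / 2 : ℝ) ≤ 2 * p.sqrt := by
        have h8 := Nat.lt_floor_add_one ((p : ℝ) ^ (1 / 2 : ℝ))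
        rw [hs] at h8
        have h9 : (1 : ℝ) ≤ p.sqrt := by exact_mod_cast (by omega : 1 ≤ p.sqrt)
        linarith
      have h8 : (0 : ℝ) ≤ (p : ℝ) ^ (1 / 2 : ℝ) := by positivity
      have h9 := Nat.le_ceil (2 * C)
      have h10 : (0 : ℝ) ≤ ⌈2 * C⌉₊ := by positivity
      push_cast
      nlinarith)
  rw [Fintype.card_fin] at h3
  have h4 : (0 : ℝ) < (p.choose p.sqrt : ℕ) := by
    exact_mod_cast Nat.choose_pos (Nat.sqrt_le_self p)
  rw [div_le_iff₀ h4]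
  exact h3

end Pool.Agent.Lib.Cov39
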