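import Pool.Agent.Lib.MP_e20aca_co.Events

/-!
Choice of parameters, the union bound, and the deterministic conclusion.
-/

set_option autoImplicit false

open Finset
open scoped BigOperators

namespace Pool.Agent.Lib.Cov39

/-- Exponent of the sampling rate at level `j`. -/
def ee (J j : ℕ) : ℕ := (J + 3) ^ (J - j + 1)

/-- Exponent of the large auxiliary quantity. -/
def DD (J : ℕ) : ℕ := ((J + 3) ^ (J + 1) + 1) * J + (J + 3) ^ (J + 1) + 5

/-- Sample size at level `j`. -/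
def mm (n u J j : ℕ) : ℕ := n / u ^ ee J j

/-- Confidence exponent at level `j`. -/
noncomputable def LL (n u J j : ℕ) : ℝ :=
  ((J + 1) * (mm n u J j : ℝ) + ((u : ℝ) ^ DD J) ^ 7 + 2) * u

lemma ee_ge (J j : ℕ) : J + 3 ≤ ee J j := Nat.le_self_pow (by omega) _

lemma ee_le (J j : ℕ) : ee J j ≤ (J + 3) ^ (J + 1) := Nat.pow_le_pow_right (by omega) (by omega)

lemma ee_succ {J j : ℕ} (h : j < J) : ee J j = (J + 3) * ee J (j + 1) := by
  unfold ee
  rw [← pow_succ']
  congr 1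
  omega

lemma ee_le_DD (J j : ℕ) : ee J j ≤ DD J := by
  have := ee_le J j
  unfold DD
  omega

lemma ee_mul_le_DD {J j : ℕ} (h : j ≤ J) : (ee J j + 1) * j ≤ DD J := by
  have h1 := ee_le J j
  have h2 : (ee J j + 1) * j ≤ ((J + 3) ^ (J + 1) + 1) * J := Nat.mul_le_mul (by omega) h
  unfold DD
  omega

lemma ee_step {J j : ℕ} (h : j < J) : (ee J (j + 1) + 1) * j ≤ ee J j - 3 := by
  have h1 := ee_succ h
  have h2 := ee_ge J (j + 1)
  have h3 : (ee J (j + 1) + 1) * j ≤ (ee J (j + 1) + 1) * J := Nat.mul_le_mul_left _ h.le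
  have h4 : (ee J (j + 1) + 1) * J + 3 ≤ (J + 3) * ee J (j + 1) := by nlinarith
  omega

lemma mm_facts {n u J : ℕ} (j : ℕ) (hu : 1 ≤ u) (hn : u ^ DD J ≤ n) :
    1 ≤ mm n u J j ∧ mm n u J j ≤ n ∧ (mm n u J j : ℝ) ≤ n / (u : ℝ) ^ ee J j ∧
      (n : ℝ) / (2 * (u : ℝ) ^ ee J j) ≤ mm n u J j ∧
      1 / yy n (mm n u J j) 1 ≤ 4 * (u : ℝ) ^ ee J j := by
  have hQ : u ^ ee J j ≤ n := (Nat.pow_le_pow_right hu (ee_le_DD J j)).trans hn
  have hQ0 : 0 < u ^ ee J j := by positivity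
  have hQ0' : (0 : ℝ) < (u : ℝ) ^ ee J j := by exact_mod_cast hQ0
  have h1 : 1 ≤ mm n u J j := Nat.div_pos hQ hQ0
  have h2 : mm n u J j ≤ n := Nat.div_le_self _ _
  have hn0 : (0 : ℝ) < n := by exact_mod_cast (h1.trans h2)
  have h4 : (n : ℝ) / (2 * (u : ℝ) ^ ee J j) ≤ mm n u J j := by
    rw [div_le_iff₀ (by positivity)]
    have h5 : n < u ^ ee J j * (mm n u J j + 1) := Nat.lt_mul_div_succ n hQ0
    have h6 : n ≤ mm n u J j * (2 * u ^ ee J j) := by nlinarith
    exact_mod_cast h6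
  refine ⟨h1, h2, ?_, h4, ?_⟩
  · have := Nat.cast_div_le (α := ℝ) (m := n) (n := u ^ ee J j)
    push_cast at this
    exact this
  · have h5 := le_yy (s := 1) (h1.trans h2) (by simpa using h2) (h1.trans h2)
    rw [div_le_iff₀ (yy_one_pos h1 h2)]
    have h6 : (1 : ℝ) / (4 * (u : ℝ) ^ ee J j) ≤ yy n (mm n u J j) 1 := by
      refine le_trans ?_ h5
      calc (1 : ℝ) / (4 * (u : ℝ) ^ ee J j) = 1 * (n / (2 * (u : ℝ) ^ ee J j)) / n / 2 := by
            field_simp; ring
        _ ≤ _ := by push_cast; gcongr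
    rw [div_le_iff₀ (by positivity)] at h6
    linarith

variable {G : Type*} [DecidableEq G] [Fintype G] [AddCommGroup G]

/-- The conjunction of all good events. -/
def GoodAll {k : ℕ} (a : Fin k → G) (n u J : ℕ) : Prop :=
  Good1 a (2 * u) ∧
  (∀ j < J, ∀ i ≤ k, Good2 a (mm n u J j) ((u ^ DD J) ^ 7)
    (fun _ : Fin j => 12 / J / yy n (mm n u J j) 1) ((u : ℝ) ^ (ee J j - 3)) (LL n u J j)
    (fun l => if l < i then 1 else 0)) ∧
  Good2 a (mm n u J J) ((u ^ DD J) ^ 7) (kap n (mm n u J J) J) 1 (LL n u J J)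
    (fun l => (1 - 2 * ((n : ℝ) / Fintype.card G)) ^ (k - 1 - l))

omit [DecidableEq G] [AddCommGroup G] in
lemma pattern_bound {n u J j : ℕ} (hj : j ≤ J) (hN : (Fintype.card G : ℝ) ≤ Real.exp u) :
    (Fintype.card G : ℝ) ^ ((j + 1) * mm n u J j + (u ^ DD J) ^ 7) * Real.exp (-LL n u J j)
      ≤ Real.exp (-(2 * u)) := by
  calc _ ≤ Real.exp u ^ ((j + 1) * mm n u J j + (u ^ DD J) ^ 7) * Real.exp (-LL n u J j) := by
        gcongr
    _ ≤ _ := by
        rw [← Real.exp_nat_mul, ← Real.exp_add, Real.exp_le_exp, LL]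
        push_cast
        have h1 : (j : ℝ) ≤ J := by exact_mod_cast hj
        have h2 : ((j : ℝ) + 1) * mm n u J j * u ≤ ((J : ℝ) + 1) * mm n u J j * u := by gcongr
        nlinarith

open Classical in
lemma card_not_goodAll (k n u J : ℕ) (hN : (Fintype.card G : ℝ) ≤ Real.exp u)
    (hk : k ^ 2 ≤ Fintype.card G) (hJ : J + 2 ≤ k) (hβ : 2 * ((n : ℝ) / Fintype.card G) ≤ 1) :
    (((univ : Finset (Fin k → G)).filter (fun a => ¬ GoodAll a n u J)).card : ℝ)
      ≤ 2 * Real.exp (-u) * (Fintype.card G : ℝ) ^ k := by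
  rcases Nat.eq_zero_or_pos u with rfl | hu
  · have h1 : (((univ : Finset (Fin k → G)).filter (fun a => ¬ GoodAll a n 0 J)).card : ℝ)
        ≤ (Fintype.card G : ℝ) ^ k := by
      have := card_filter_le (univ : Finset (Fin k → G)) (fun a => ¬ GoodAll a n 0 J)
      simp only [card_univ, Fintype.card_fun, Fintype.card_fin] at this
      exact_mod_cast this
    have h2 : (0 : ℝ) ≤ (Fintype.card G : ℝ) ^ k := by positivity
    simp only [Nat.cast_zero, neg_zero, Real.exp_zero]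
    linarith
  have hu' : (0 : ℝ) < u := by exact_mod_cast hu
  set W := (Fintype.card G : ℝ) ^ k with hW
  have hW0 : 0 ≤ W := by positivity
  set b1 := (univ : Finset (Fin k → G)).filter (fun a => ¬ Good1 a (2 * u)) with hb1
  set b2 : ℕ × ℕ → Finset (Fin k → G) := fun ji => univ.filter (fun a =>
    ¬ Good2 a (mm n u J ji.1) ((u ^ DD J) ^ 7)
    (fun _ : Fin ji.1 => 12 / J / yy n (mm n u J ji.1) 1) ((u : ℝ) ^ (ee J ji.1 - 3))
    (LL n u J ji.1) (fun l => if l < ji.2 then 1 else 0)) with hb2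
  set b3 := (univ : Finset (Fin k → G)).filter (fun a =>
    ¬ Good2 a (mm n u J J) ((u ^ DD J) ^ 7) (kap n (mm n u J J) J) 1 (LL n u J J)
    (fun l => (1 - 2 * ((n : ℝ) / Fintype.card G)) ^ (k - 1 - l))) with hb3
  have hsub : (univ : Finset (Fin k → G)).filter (fun a => ¬ GoodAll a n u J)
      ⊆ b1 ∪ ((range J ×ˢ range (k + 1)).biUnion b2 ∪ b3) := by
    intro a ha
    have ha' := (mem_filter.1 ha).2
    unfold GoodAll at ha'
    rw [not_and_or, not_and_or] at ha'
    rcases ha' with h | h | h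
    · exact mem_union_left _ (mem_filter.2 ⟨mem_univ _, h⟩)
    · push Not at h
      obtain ⟨j, hj, i, hi, h⟩ := h
      exact mem_union_right _ (mem_union_left _ (mem_biUnion.2 ⟨(j, i),
        mem_product.2 ⟨mem_range.2 hj, mem_range.2 (Nat.lt_succ_of_le hi)⟩,
        mem_filter.2 ⟨mem_univ _, h⟩⟩))
    · exact mem_union_right _ (mem_union_right _ (mem_filter.2 ⟨mem_univ _, h⟩))
  have h1 : (b1.card : ℝ) ≤ Fintype.card G * (Real.exp (-(2 * u)) * W) := card_not_good1 k _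
  have h2 : ∀ ji ∈ range J ×ˢ range (k + 1), ((b2 ji).card : ℝ) ≤ Real.exp (-(2 * u)) * W := by
    intro ji hji
    refine (card_not_good2 k _ _ _ _ _ (by positivity) _ (fun l => by split_ifs <;> norm_num)
      (fun l => by split_ifs <;> norm_num)).trans ?_
    rw [← mul_assoc]
    exact mul_le_mul_of_nonneg_right
      (pattern_bound (mem_range.1 (mem_product.1 hji).1).le hN) hW0
  have h3 : (b3.card : ℝ) ≤ Real.exp (-(2 * u)) * W := by
    have h4 : (0 : ℝ) ≤ (n : ℝ) / Fintype.card G := by positivity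
    refine (card_not_good2 k _ _ _ _ _ one_pos _ (fun l => pow_nonneg (by linarith) _)
      (fun l => pow_le_one₀ (by linarith) (by linarith))).trans ?_
    rw [← mul_assoc]
    exact mul_le_mul_of_nonneg_right (pattern_bound le_rfl hN) hW0
  have h4 : ((((range J ×ˢ range (k + 1)).biUnion b2).card : ℕ) : ℝ)
      ≤ (J * (k + 1) : ℕ) * (Real.exp (-(2 * u)) * W) := by
    calc _ ≤ ∑ ji ∈ range J ×ˢ range (k + 1), ((b2 ji).card : ℝ) := by
          exact_mod_cast card_biUnion_le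
      _ ≤ ∑ _ji ∈ range J ×ˢ range (k + 1), Real.exp (-(2 * u)) * W := sum_le_sum h2
      _ = _ := by rw [sum_const, card_product, card_range, card_range, nsmul_eq_mul]
  have h5 : (((univ : Finset (Fin k → G)).filter (fun a => ¬ GoodAll a n u J)).card : ℝ)
      ≤ b1.card + ((((range J ×ˢ range (k + 1)).biUnion b2).card : ℝ) + b3.card) := by
    exact_mod_cast (card_le_card hsub).trans ((card_union_le _ _).trans
      (Nat.add_le_add_left (card_union_le _ _) _))
  have h6 : ((J * (k + 1) : ℕ) : ℝ) + 1 ≤ Fintype.card G := by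
    have : J * (k + 1) + 1 ≤ Fintype.card G := by nlinarith
    exact_mod_cast this
  have h7 : Real.exp u * Real.exp (-(2 * u)) = Real.exp (-u) := by
    rw [← Real.exp_add]; congr 1; ring
  have h8 : 0 ≤ Real.exp (-(2 * u)) * W := by positivity
  calc _ ≤ 2 * Real.exp u * (Real.exp (-(2 * u)) * W) := by nlinarith
    _ = _ := by rw [← h7]; ring

/-- On the good event, no set of `c k` translates covers the group. -/
lemma exists_uncovered {k c u J : ℕ} (a : Fin k → G) (ha : Function.Injective a) (T : Finset G)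
    (hT : T.card = c * k) (hG : GoodAll a (c * k) u J) (hc : 1 ≤ c) (hev : Even J) (hJ0 : 0 < J)
    (hJ : c * (2 * (2 * Real.exp (24 * Real.exp 24 * c) / 2 ^ J)) ≤ Real.exp (-(4 * c)) / 4)
    (hu : 49 ≤ u) (hu1 : 4 * J ≤ u) (hu2 : (J + 1) * c ≤ u) (hu3 : 11 * c ≤ u)
    (hu4 : 168 * Real.exp 24 * c ≤ u) (hu5 : 84 * c * Real.exp (4 * c) ≤ u)
    (hk : (u ^ DD J) ^ 17 ≤ k) (hN : k ^ 2 ≤ Fintype.card G) :
    ∃ x, rr T (univ.image a) x = 0 := by
  rw [← hT] at hG
  obtain ⟨hG1, hG2, hG3⟩ := hG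
  set n := T.card with hn
  set A := univ.image a with hA
  have hAk : A.card = k := by rw [hA, card_image_of_injective _ ha]; simp
  have hu' : (49 : ℝ) ≤ u := by exact_mod_cast hu
  have hu0 : (0 : ℝ) < u := by linarith
  have hc' : (1 : ℝ) ≤ c := by exact_mod_cast hc
  have hu3' : 11 * (c : ℝ) ≤ u := by exact_mod_cast hu3
  have hJ' : (1 : ℝ) ≤ J := by exact_mod_cast hJ0
  set V : ℝ := (u : ℝ) ^ DD J with hV
  have hV5 : (u : ℝ) ^ 5 ≤ V := pow_le_pow_right₀ (by linarith) (by unfold DD; omega)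
  have hVk : V ^ 17 ≤ k := by rw [hV]; exact_mod_cast hk
  have hu5' : (u : ℝ) ≤ (u : ℝ) ^ 5 := le_self_pow₀ (by linarith) (by norm_num)
  have hu3V : (u : ℝ) ^ 3 ≤ V := (pow_le_pow_right₀ (by linarith) (by norm_num)).trans hV5
  have hu2V : (u : ℝ) ^ 2 ≤ V := (pow_le_pow_right₀ (by linarith) (by norm_num)).trans hV5
  have huV : (u : ℝ) ≤ V := by linarith
  have hV1 : 1 ≤ V := by linarith
  have hV0 : 0 < V := by linarith
  have hVk' : ∀ i ≤ 17, V ^ i ≤ k := fun i hi => (pow_le_pow_right₀ hV1 hi).trans hVk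
  have hk1 : (1 : ℝ) ≤ k := by simpa using hVk' 0 (by norm_num)
  have hk0 : (0 : ℝ) < k := by linarith
  have hnk : (n : ℝ) = c * k := by rw [hT]; push_cast; ring
  have hkn : (k : ℝ) ≤ n := by rw [hnk]; nlinarith
  have hn0 : (0 : ℝ) < n := by linarith
  have hTne : T.Nonempty := card_pos.1 (by exact_mod_cast hn0)
  have hVn : u ^ DD J ≤ n := by
    have h1 := hVk' 1 (by norm_num)
    rw [pow_one, hV] at h1
    exact_mod_cast h1.trans hkn
  have hN' : (k : ℝ) ^ 2 ≤ Fintype.card G := by exact_mod_cast hN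
  have hN0 : (0 : ℝ) < Fintype.card G := by exact_mod_cast Fintype.card_pos
  have hβk : (n : ℝ) / Fintype.card G * k ≤ c := by
    rw [div_mul_eq_mul_div, div_le_iff₀ hN0, hnk]
    nlinarith
  have hβ0 : 0 ≤ (n : ℝ) / Fintype.card G := by positivity
  have hβ4 : 4 * ((n : ℝ) / Fintype.card G) ≤ 1 := by
    have h1 := hVk' 1 (by norm_num)
    rw [pow_one] at h1
    refine le_of_mul_le_mul_right ?_ hk0
    nlinarith
  set L₀ : ℝ := 2 * (2 + 2 * u) with hL₀
  have hL0 : 0 ≤ L₀ := by positivity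
  have hL : ∀ d ≠ 0, ((A.filter fun b => b + d ∈ A).card : ℝ) ≤ L₀ :=
    fun d hd => diff_le_of_good1 a _ hG1 hN d hd
  have hLV : L₀ ≤ V := by nlinarith
  have hen := en_le T A L₀ hL0 hL
  rw [hAk, ← hn] at hen
  have hE : (k : ℝ) + n * L₀ + 2 * k * c ≤ k * u ^ 2 := by
    rw [hnk]
    have : 1 + c * L₀ + 2 * c ≤ u ^ 2 := by rw [hL₀]; nlinarith
    nlinarith
  have hE0 : 0 ≤ (k : ℝ) + n * L₀ + 2 * k * c := by positivity
  set τ : ℝ := k / V ^ 3 with hτ
  have hτ0 : 0 < τ := by positivity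
  obtain ⟨ζ, hζ⟩ := exists_enum
    (univ.filter fun z => τ < ((T.filter fun t => t - z ∈ A).card : ℝ)) ((u ^ DD J) ^ 7) (by
      have h1 := card_heavy_le T A τ hτ0.le
      have h2 : (n : ℝ) * (k + n * L₀) ≤ V ^ 7 * τ ^ 2 := by
        have h3 : (k : ℝ) + n * L₀ ≤ k * u ^ 2 := by nlinarith
        calc (n : ℝ) * (k + n * L₀) ≤ c * k * (k * u ^ 2) := by rw [← hnk]; gcongr
          _ = (c * u ^ 2) * k ^ 2 := by ring
          _ ≤ V * k ^ 2 := by gcongr; nlinarith
          _ = _ := by rw [hτ]; field_simp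
      have h3 := le_of_mul_le_mul_right (h1.trans (hen.trans h2)) (by positivity)
      rw [hV] at h3
      exact_mod_cast h3)
  set Z := univ.image ζ with hZ
  have hZc : (Z.card : ℝ) ≤ V ^ 7 := by
    have : Z.card ≤ (u ^ DD J) ^ 7 := card_image_le.trans (by simp)
    rw [hV]; exact_mod_cast this
  have hZτ : ∀ z ∉ Z, ((T.filter fun t => t - z ∈ A).card : ℝ) ≤ τ := fun z hz =>
    not_lt.1 fun h => hz (hζ (mem_filter.2 ⟨mem_univ _, h⟩))
  have hE₁ : ∑ l : Fin k, 𝔼 t : T, (rr T A (a l + t) : ℝ) ≤ k + n * L₀ := by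
    have h1 : ∀ l, 𝔼 t : T, (rr T A (a l + t) : ℝ) = (∑ t ∈ T, (rr T A (a l + t) : ℝ)) / n :=
      fun l => expect_coe T (fun t => (rr T A (a l + t) : ℝ))
    simp_rw [h1]
    rw [← sum_div, div_le_iff₀ hn0, mul_comm]
    refine le_trans (le_of_eq ?_) hen
    rw [← sum_rr_eq_en, hA, sum_image (fun x _ y _ h => ha h)]
    push_cast
    rfl
  have hE₂ : 𝔼 x, (rr T A x : ℝ) ≤ c := by
    rw [expect_rr, hAk, ← div_mul_eq_mul_div]
    exact hβk
  have hQ : ∀ j, (u : ℝ) ^ ee J j ≤ V := fun j => pow_le_pow_right₀ (by linarith) (ee_le_DD J j)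
  have hQ1 : ∀ j, (1 : ℝ) ≤ (u : ℝ) ^ ee J j := fun j => one_le_pow₀ (by linarith)
  have hQu : ∀ j, 1 + 48 * (u : ℝ) ^ ee J j ≤ (u : ℝ) ^ (ee J j + 1) := fun j => by
    rw [pow_succ]; nlinarith [hQ1 j]
  have hmm := fun j => mm_facts (n := n) (J := J) j (by omega : 1 ≤ u) hVn
  have htr : ∀ j ≤ J, ∀ (κ : Fin j → ℝ) (Λ : ℝ) (w : ℕ → ℝ), (∀ l, 0 ≤ w l) → (∀ l, w l ≤ 1) →
      (∀ s, |κ s| ≤ 48 * (u : ℝ) ^ ee J j) → 0 ≤ Λ → Λ * u ^ 3 ≤ (u : ℝ) ^ ee J j →
      Good2 a (mm n u J j) ((u ^ DD J) ^ 7) κ Λ (LL n u J j) w →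
      ∑ l : Fin k, w l * tr Λ (Ft T (mm n u J j) κ Z (past a l) (a l))
        ≤ 2 * ∑ l : Fin k, (𝔼 x, w l * tr Λ (Ft T (mm n u J j) κ Z (past a l) x))
          + k * (7 / u) := by
    intro j hj κ Λ w hw0 hw1 hκ hΛ0 hΛ hg
    have h1 := transfer a κ Λ _ w hw0 hw1 hg T hTne ζ τ hτ0.le hZτ (hmm j).1 _ (by positivity) hκ
      (1 / u) (by positivity) _ _ hE₁ hE₂
    have h2 := slack_bound (k := k) (n := n) (u := u) (V := V) (c := c) (J := J) (j := j)
      (m := mm n u J j) (B := (1 + 48 * (u : ℝ) ^ ee J j) ^ j) (Q := (u : ℝ) ^ ee J j) (Λ := Λ)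
      (E := k + n * L₀ + 2 * k * c) (by linarith) (by exact_mod_cast hu1) (by positivity)
      (by exact_mod_cast hj) (by exact_mod_cast hu2) hnk hc' hV5 hVk (hQ j) (hQ1 j) hΛ hΛ0
      (hmm j).2.2.1 (hmm j).2.2.2.1 (by positivity) (by
        refine (pow_le_pow_left₀ (by positivity) (hQu j) j).trans ?_
        rw [← pow_mul]
        exact pow_le_pow_right₀ (by linarith) (ee_mul_le_DD hj)) hE0 hE
    unfold LL at h1
    rw [← hV, ← hn] at h1
    rw [← hτ] at h2
    linarith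
  have hθ : (0 : ℝ) ≤ 12 / J := by positivity
  have hκ : ∀ j, 12 / (J : ℝ) / yy n (mm n u J j) 1 ≤ 48 * (u : ℝ) ^ ee J j := by
    intro j
    have h1 := (hmm j).2.2.2.2
    have h2 : 12 / (J : ℝ) ≤ 12 := div_le_self (by norm_num) hJ'
    have h3 := yy_one_pos (hmm j).1 (hmm j).2.1
    calc _ ≤ 12 / yy n (mm n u J j) 1 := by gcongr
      _ = 12 * (1 / yy n (mm n u J j) 1) := by ring
      _ ≤ _ := by linarith
  have hΛ : ∀ j, (u : ℝ) ^ (ee J j - 3) * u ^ 3 = (u : ℝ) ^ ee J j := fun j => by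
    rw [← pow_add]; congr 1; have := ee_ge J j; omega
  have hδ0 : (0 : ℝ) ≤ 7 / u := by positivity
  have hGm := Gm_bound a T Z J (mm n u J) (fun j => (u : ℝ) ^ (ee J j - 3)) (θ := 12 / J)
    (lam := 12) (K₁ := Real.exp 24) (δ := 7 / u) (c := c) (fun j _ => (hmm j).1)
    (fun j _ => (hmm j).2.1)
    (fun j hj => Nat.div_le_div_left (Nat.pow_le_pow_right (by omega) (by
      rw [ee_succ hj]; exact Nat.le_mul_of_pos_left _ (by omega))) (by positivity))
    hθ (le_of_eq (by field_simp))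
    ((one_add_pow_le_exp (by positivity) J).trans (le_of_eq (by congr 1; field_simp; norm_num)))
    (by
      intro j hj
      have h1 := yy_one_pos (hmm (j + 1)).1 (hmm (j + 1)).2.1
      calc _ ≤ ((u : ℝ) ^ (ee J (j + 1) + 1)) ^ j :=
            pow_le_pow_left₀ (by positivity) (by linarith [hκ (j + 1), hQu (j + 1)]) j
        _ ≤ _ := by
            rw [← pow_mul]
            exact pow_le_pow_right₀ (by linarith) (ee_step hj))
    hδ0
    (by
      intro j _
      have h1 := card_tbad_le T A Z L₀ hL0 hL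
      have h2 : (u : ℝ) ^ (ee J j - 3) ≤ V :=
        pow_le_pow_right₀ (by linarith) ((Nat.sub_le _ _).trans (ee_le_DD J j))
      rw [div_le_div_iff₀ hn0 hu0]
      calc _ ≤ (V ^ 7) ^ 2 * V * V * V := by
            gcongr
            exact h1.trans (by gcongr)
        _ = V ^ 17 := by ring
        _ ≤ _ := by linarith)
    hβk
    (by
      have e : (c : ℝ) * (12 * Real.exp 24) * (2 * (7 / u)) = 168 * Real.exp 24 * c / u := by ring
      rw [e, div_le_one hu0]
      exact hu4)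
    (fun j hj i hi => htr j hj.le _ _ (fun l => if l < i then 1 else 0)
      (fun l => by split_ifs <;> norm_num) (fun l => by split_ifs <;> norm_num)
      (fun _ => by
        have h3 := yy_one_pos (hmm j).1 (hmm j).2.1
        rw [abs_of_nonneg (by positivity)]
        exact hκ j) (by positivity) (hΛ j).le (hG2 j hj i hi))
  have hJm : J * mm n u J J ≤ n := by
    refine le_trans (Nat.mul_le_mul_right _ ?_) (Nat.mul_div_le n (u ^ ee J J))
    exact le_trans (by omega : J ≤ u) (Nat.le_self_pow (by have := ee_ge J J; omega) u)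
  have hunc := unc_bound a T Z (hmm J).1 hJm hJ0 hev (δ := 7 / u) (c := c)
    (Gb := 2 * Real.exp (24 * Real.exp 24 * c)) hδ0 (by positivity) (by linarith) hβk
    (by
      rw [div_le_div_iff₀ hN0 hu0]
      calc _ ≤ (c * k) * V ^ 7 * V := by rw [← hnk]; gcongr
        _ ≤ (V * k) * V ^ 7 * V := by gcongr; linarith
        _ = V ^ 9 * k := by ring
        _ ≤ k * k := by gcongr; exact hVk' 9 (by norm_num)
        _ ≤ _ := by nlinarith)
    (by
      intro i hi
      refine (hGm J le_rfl i hi).trans ?_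
      gcongr
      refine (one_add_pow_le_exp (by positivity) i).trans (Real.exp_le_exp.2 ?_)
      have h1 : (i : ℝ) ≤ k := by exact_mod_cast hi
      calc _ ≤ k * (2 * (12 * Real.exp 24) * ((n : ℝ) / Fintype.card G)) := by gcongr
        _ = 24 * Real.exp 24 * ((n : ℝ) / Fintype.card G * k) := by ring
        _ ≤ _ := by gcongr)
    (htr J le_rfl _ 1 (fun l => (1 - 2 * ((n : ℝ) / Fintype.card G)) ^ (k - 1 - l))
      (fun l => pow_nonneg (by linarith) _) (fun l => pow_le_one₀ (by linarith) (by linarith))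
      (by
        intro s
        have h1 := (hmm J).2.2.2.2
        have h3 := yy_one_pos (hmm J).1 (hmm J).2.1
        have h4 : (s : ℕ) + 1 ≤ n :=
          le_trans s.2 (le_trans (Nat.le_mul_of_pos_right _ (hmm J).1) hJm)
        have h5 := yy_mono (mm n u J J) (show 1 ≤ (s : ℕ) + 1 by omega) h4
        unfold kap
        rw [neg_div, abs_neg, abs_of_nonneg (div_nonneg zero_le_one (by linarith))]
        calc _ ≤ 1 / yy n (mm n u J J) 1 := by gcongr
          _ ≤ _ := by linarith [hQ1 J])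
      zero_le_one
      (by
        rw [one_mul]
        exact pow_le_pow_right₀ (by linarith) (by have := ee_ge J J; omega)) hG3)
  have h1 := exp_neg_le_pow hβ0 hβ4 hβk
  have h2 : (c : ℝ) * (3 * (7 / u)) ≤ Real.exp (-(4 * c)) / 4 := by
    rw [Real.exp_neg, le_div_iff₀ (by norm_num), ← one_div, le_div_iff₀ (Real.exp_pos _)]
    have e : (c : ℝ) * (3 * (7 / u)) * 4 * Real.exp (4 * c) = 84 * c * Real.exp (4 * c) / u := by
      ring
    rw [e, div_le_one hu0]
    exact hu5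
  have h3 : 0 < unc T A := by
    have := Real.exp_pos (-(4 * (c : ℝ)))
    rw [mul_add] at hunc
    linarith
  by_contra hcon
  push Not at hcon
  have : unc T A = 0 := expect_eq_zero fun x _ => if_neg (hcon x)
  linarith

end Pool.Agent.Lib.Cov39
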