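import Mathlib

/-!
Sequential exposure of a random sequence: an exponential tail bound.
-/

set_option autoImplicit false

open Finset
open scoped BigOperators

namespace Pool.Agent.Lib.Cov39

variable {G : Type*} [DecidableEq G]

/-- The set of the first `l` terms of the sequence `a`. -/
def past {k : ℕ} (a : Fin k → G) (l : ℕ) : Finset G :=
  (univ.filter (fun i : Fin k => (i : ℕ) < l)).image a

lemma mem_past {k : ℕ} (a : Fin k → G) (l : ℕ) (x : G) :
    x ∈ past a l ↔ ∃ i : Fin k, (i : ℕ) < l ∧ a i = x := by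
  simp [past]

lemma past_zero {k : ℕ} (a : Fin k → G) : past a 0 = ∅ := by
  ext x; simp [mem_past]

lemma past_succ {k : ℕ} (a : Fin k → G) (l : Fin k) :
    past a (l + 1) = insert (a l) (past a l) := by
  ext x
  simp only [mem_past, mem_insert]
  constructor
  · rintro ⟨i, hi, rfl⟩
    rcases Nat.lt_succ_iff_lt_or_eq.1 hi with h | h
    · exact Or.inr ⟨i, h, rfl⟩
    · left; congr 1; exact Fin.ext h
  · rintro (rfl | ⟨i, hi, rfl⟩)
    · exact ⟨l, Nat.lt_succ_self _, rfl⟩
    · exact ⟨i, Nat.lt_succ_of_lt hi, rfl⟩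

lemma past_mono {k : ℕ} (a : Fin k → G) {l l' : ℕ} (h : l ≤ l') : past a l ⊆ past a l' := by
  intro x hx
  rw [mem_past] at hx ⊢
  obtain ⟨i, hi, rfl⟩ := hx
  exact ⟨i, lt_of_lt_of_le hi h, rfl⟩

lemma past_subset {k : ℕ} (a : Fin k → G) (l : ℕ) : past a l ⊆ univ.image a := by
  intro x hx
  rw [mem_past] at hx
  obtain ⟨i, -, rfl⟩ := hx
  exact mem_image_of_mem _ (mem_univ _)

lemma past_full {k : ℕ} (a : Fin k → G) : past a k = univ.image a := by
  ext x; simp [mem_past]

lemma card_past_le {k : ℕ} (a : Fin k → G) (l : ℕ) : (past a l).card ≤ k := by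
  refine (card_le_card (past_subset a l)).trans (card_image_le.trans ?_)
  simp

lemma past_cons {k : ℕ} (x : G) (a : Fin k → G) (l : ℕ) :
    past (Fin.cons x a : Fin (k + 1) → G) (l + 1) = insert x (past a l) := by
  ext y
  simp only [mem_past, mem_insert, Fin.exists_fin_succ, Fin.val_zero, Fin.cons_zero,
    Fin.val_succ, Fin.cons_succ, Nat.zero_lt_succ, true_and, Nat.add_lt_add_iff_right]
  constructor
  · rintro (h | h)
    · exact Or.inl h.symm
    · exact Or.inr h
  · rintro (h | h)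
    · exact Or.inl h.symm
    · exact Or.inr h

variable [Fintype G]

lemma seq_prod_le (k : ℕ) : ∀ (φ : ℕ → Finset G → G → ℝ) (_ : ∀ l P x, 0 ≤ φ l P x)
    (_ : ∀ l P, ∑ x, φ l P x ≤ Fintype.card G) (P₀ : Finset G),
    ∑ a : Fin k → G, ∏ l : Fin k, φ l (P₀ ∪ past a l) (a l) ≤ (Fintype.card G : ℝ) ^ k := by
  induction k with
  | zero => intro φ _ _ P₀; simp
  | succ k ih =>
    intro φ h0 h1 P₀
    rw [← (Fin.consEquiv (fun _ : Fin (k + 1) => G)).sum_comp, Fintype.sum_prod_type]
    have key : ∀ x : G, ∑ a : Fin k → G, ∏ l : Fin (k + 1),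
        φ l (P₀ ∪ past ((Fin.consEquiv (fun _ : Fin (k + 1) => G)) (x, a)) l)
          (((Fin.consEquiv (fun _ : Fin (k + 1) => G)) (x, a)) l)
          ≤ φ 0 P₀ x * (Fintype.card G : ℝ) ^ k := by
      intro x
      have h2 := ih (fun l => φ (l + 1)) (fun l P y => h0 _ _ _) (fun l P => h1 _ _)
        (insert x P₀)
      refine le_trans (le_of_eq ?_) (mul_le_mul_of_nonneg_left h2 (h0 0 P₀ x))
      rw [mul_sum]
      refine sum_congr rfl fun a _ => ?_
      rw [Fin.prod_univ_succ]
      have e : (Fin.consEquiv (fun _ : Fin (k + 1) => G)) (x, a)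
          = (Fin.cons x a : Fin (k + 1) → G) := rfl
      rw [e]
      congr 1
      · simp [past_zero]
      · refine prod_congr rfl fun l _ => ?_
        rw [Fin.val_succ, past_cons, Fin.cons_succ, union_insert, insert_union]
    calc _ ≤ ∑ x : G, φ 0 P₀ x * (Fintype.card G : ℝ) ^ k := sum_le_sum fun x _ => key x
      _ = (∑ x : G, φ 0 P₀ x) * (Fintype.card G : ℝ) ^ k := by rw [sum_mul]
      _ ≤ (Fintype.card G : ℝ) * (Fintype.card G : ℝ) ^ k :=
        mul_le_mul_of_nonneg_right (h1 0 P₀) (by positivity)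
      _ = _ := by ring

lemma exp_le_one_add_two_mul {x : ℝ} (h0 : 0 ≤ x) (h1 : x ≤ 1) : Real.exp x ≤ 1 + 2 * x := by
  have h := Real.abs_exp_sub_one_le (x := x) (by rw [abs_of_nonneg h0]; exact h1)
  rw [abs_of_nonneg h0] at h
  have := le_abs_self (Real.exp x - 1)
  linarith

/-- Tail bound: the sum of bounded predictable functions evaluated along the sequence exceeds
twice the sum of the conditional means plus `Λ L` with probability at most `exp (-L)`. -/
lemma seq_tail [Nonempty G] (k : ℕ) (h : ℕ → Finset G → G → ℝ) (Λ L : ℝ) (hΛ : 0 < Λ)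
    (h0 : ∀ l P x, 0 ≤ h l P x) (h1 : ∀ l P x, h l P x ≤ Λ) :
    (((univ : Finset (Fin k → G)).filter (fun a =>
      2 * ∑ l : Fin k, (𝔼 x, h l (past a l) x) + Λ * L < ∑ l : Fin k, h l (past a l) (a l))).card : ℝ)
      ≤ Real.exp (-L) * (Fintype.card G : ℝ) ^ k := by
  have hN : (0 : ℝ) < Fintype.card G := by exact_mod_cast Fintype.card_pos
  set φ : ℕ → Finset G → G → ℝ :=
    fun l P x => Real.exp (h l P x / Λ - 2 * (𝔼 y, h l P y) / Λ) with hφ
  have hs := seq_prod_le k φ (fun l P x => (Real.exp_pos _).le) (by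
    intro l P
    have hm : (𝔼 y, h l P y) = (∑ y, h l P y) / Fintype.card G := by
      rw [Finset.expect_eq_sum_div_card]; simp
    set μ := 𝔼 y, h l P y
    have h2 : ∀ x, φ l P x ≤ (1 + 2 * (h l P x / Λ)) * Real.exp (-(2 * μ / Λ)) := by
      intro x
      simp only [hφ]
      rw [sub_eq_add_neg, Real.exp_add]
      refine mul_le_mul_of_nonneg_right ?_ (Real.exp_pos _).le
      exact exp_le_one_add_two_mul (div_nonneg (h0 _ _ _) hΛ.le) ((div_le_one hΛ).2 (h1 _ _ _))
    calc ∑ x, φ l P x ≤ ∑ x, (1 + 2 * (h l P x / Λ)) * Real.exp (-(2 * μ / Λ)) :=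
          sum_le_sum fun x _ => h2 x
      _ = Fintype.card G * ((1 + 2 * μ / Λ) * Real.exp (-(2 * μ / Λ))) := by
          rw [← sum_mul, sum_add_distrib, ← mul_sum, ← sum_div, hm]
          simp only [sum_const, card_univ, nsmul_eq_mul, mul_one]
          field_simp
      _ ≤ Fintype.card G * 1 := by
          refine mul_le_mul_of_nonneg_left ?_ hN.le
          have := Real.add_one_le_exp (2 * μ / Λ)
          rw [Real.exp_neg, ← div_eq_mul_inv, div_le_one (Real.exp_pos _)]
          linarith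
      _ = _ := mul_one _) ∅
  simp only [empty_union] at hs
  set S := (univ : Finset (Fin k → G)).filter (fun a =>
      2 * ∑ l : Fin k, (𝔼 x, h l (past a l) x) + Λ * L < ∑ l : Fin k, h l (past a l) (a l))
  have h3 : ∀ a ∈ S, Real.exp L ≤ ∏ l : Fin k, φ l (past a l) (a l) := by
    intro a ha
    have ha' := (mem_filter.1 ha).2
    simp only [hφ]
    rw [← Real.exp_sum, Real.exp_le_exp, sum_sub_distrib, ← sum_div, ← sum_div, ← mul_sum,
      ← sub_div, le_div_iff₀ hΛ]
    linarith
  have h4 : (S.card : ℝ) * Real.exp L ≤ (Fintype.card G : ℝ) ^ k := by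
    calc (S.card : ℝ) * Real.exp L = ∑ _a ∈ S, Real.exp L := by simp
      _ ≤ ∑ a ∈ S, ∏ l : Fin k, φ l (past a l) (a l) := sum_le_sum h3
      _ ≤ ∑ a, ∏ l : Fin k, φ l (past a l) (a l) :=
          sum_le_sum_of_subset_of_nonneg (subset_univ _) fun a _ _ =>
            prod_nonneg fun l _ => (Real.exp_pos _).le
      _ ≤ _ := hs
  rw [Real.exp_neg, ← div_eq_inv_mul, le_div_iff₀ (Real.exp_pos _)]
  exact h4

end Pool.Agent.Lib.Cov39
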