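import Mathlib

/-!
Product estimators built from independent samples of a finite set, and their variance.
-/

set_option autoImplicit false

open Finset
open scoped BigOperators

namespace Pool.Agent.Lib.Cov39

variable {G : Type*} [DecidableEq G]

/-- Probability that `m` uniform samples from an `n`-set hit a given `r`-subset. -/
noncomputable def yy (n m r : ℕ) : ℝ := 1 - (1 - (r : ℝ) / n) ^ m

/-- The mean of the product estimator. -/
noncomputable def psi {j : ℕ} (n m : ℕ) (κ : Fin j → ℝ) (r : ℕ) : ℝ :=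
  ∏ s, (1 + κ s * yy n m r)

/-- Indicator that the sample `σ` misses `S`. -/
noncomputable def mis {m : ℕ} (S : Finset G) (σ : Fin m → G) : ℝ :=
  ∏ i, if σ i ∈ S then 0 else 1

/-- The product estimator. -/
noncomputable def phi {j m : ℕ} (κ : Fin j → ℝ) (S : Finset G) (σ : Fin j → Fin m → G) : ℝ :=
  ∏ s, (1 + κ s * (1 - mis S (σ s)))

lemma expect_pi_prod {α β : Type*} [Fintype α] [DecidableEq α] [Fintype β] (f : α → β → ℝ) :
    𝔼 σ : α → β, ∏ s, f s (σ s) = ∏ s, 𝔼 x, f s x := by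
  rw [Fintype.expect_eq_sum_div_card, ← Fintype.prod_sum]
  simp_rw [Fintype.expect_eq_sum_div_card]
  rw [prod_div_distrib]
  simp

omit [DecidableEq G] in
lemma expect_coe (T : Finset G) (f : G → ℝ) :
    𝔼 x : T, f x = (∑ x ∈ T, f x) / T.card := by
  rw [Fintype.expect_eq_sum_div_card, Finset.sum_coe_sort T f]
  simp

lemma mis_nonneg {m : ℕ} (S : Finset G) (σ : Fin m → G) : 0 ≤ mis S σ :=
  prod_nonneg fun i _ => by split_ifs <;> norm_num

lemma mis_le_one {m : ℕ} (S : Finset G) (σ : Fin m → G) : mis S σ ≤ 1 :=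
  prod_le_one (fun i _ => by split_ifs <;> norm_num) (fun i _ => by split_ifs <;> norm_num)

lemma mis_union {m : ℕ} (S S' : Finset G) (σ : Fin m → G) :
    mis (S ∪ S') σ = mis S σ * mis S' σ := by
  unfold mis
  rw [← prod_mul_distrib]
  refine prod_congr rfl fun i _ => ?_
  by_cases h : σ i ∈ S <;> by_cases h' : σ i ∈ S' <;> simp [h, h']

lemma expect_mis (T : Finset G) (hT : T.Nonempty) (m : ℕ) (S : Finset G) :
    𝔼 σ : Fin m → T, mis S (fun i => (σ i : G)) = (1 - ((T ∩ S).card : ℝ) / T.card) ^ m := by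
  have hn : (0 : ℝ) < T.card := by exact_mod_cast hT.card_pos
  unfold mis
  rw [expect_pi_prod (fun (_ : Fin m) (x : T) => if (x : G) ∈ S then (0 : ℝ) else 1)]
  rw [expect_coe T (fun x => if x ∈ S then (0 : ℝ) else 1)]
  have h : ∑ x ∈ T, (if x ∈ S then (0 : ℝ) else 1) = T.card - (T ∩ S).card := by
    have h1 : ∑ x ∈ T, (if x ∈ S then (1 : ℝ) else 0) = (T ∩ S).card := by
      rw [sum_boole, filter_mem_eq_inter]
    have h2 : ∑ x ∈ T, (if x ∈ S then (0 : ℝ) else 1)
        = ∑ x ∈ T, (1 - if x ∈ S then (1 : ℝ) else 0) :=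
      sum_congr rfl fun x _ => by split_ifs <;> simp
    rw [h2, sum_sub_distrib, h1]
    simp
  rw [h, prod_const, card_univ, Fintype.card_fin]
  congr 1
  field_simp

lemma abs_prod_sub_prod_le {α : Type*} (s : Finset α) (u v : α → ℝ) (M δ : ℝ)
    (hu : ∀ i ∈ s, |u i| ≤ M) (hv : ∀ i ∈ s, |v i| ≤ M) (hd : ∀ i ∈ s, |u i - v i| ≤ M * δ)
    (hδ : 0 ≤ δ) (hM : 0 ≤ M) :
    |∏ i ∈ s, u i - ∏ i ∈ s, v i| ≤ s.card * M ^ s.card * δ := by
  classical
  induction s using Finset.induction with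
  | empty => simp
  | insert a s ha ih =>
    rw [prod_insert ha, prod_insert ha, card_insert_of_notMem ha]
    have ih' := ih (fun i hi => hu i (mem_insert_of_mem hi)) (fun i hi => hv i (mem_insert_of_mem hi))
      (fun i hi => hd i (mem_insert_of_mem hi))
    have h1 := hu a (mem_insert_self _ _)
    have h2 := hd a (mem_insert_self _ _)
    have h3 : |∏ i ∈ s, v i| ≤ M ^ s.card := by
      rw [Finset.abs_prod]
      exact (prod_le_prod (fun i _ => abs_nonneg _)
        (fun i hi => hv i (mem_insert_of_mem hi))).trans (by simp)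
    have e : u a * ∏ i ∈ s, u i - v a * ∏ i ∈ s, v i
        = u a * (∏ i ∈ s, u i - ∏ i ∈ s, v i) + (u a - v a) * ∏ i ∈ s, v i := by ring
    rw [e]
    calc _ ≤ |u a| * |∏ i ∈ s, u i - ∏ i ∈ s, v i| + |u a - v a| * |∏ i ∈ s, v i| := by
          refine (abs_add_le _ _).trans ?_
          rw [abs_mul, abs_mul]
      _ ≤ M * (s.card * M ^ s.card * δ) + M * δ * M ^ s.card := by
          gcongr
      _ = _ := by push_cast; ring

lemma abs_factor_le {κ K y : ℝ} (hK : |κ| ≤ K) (h0 : 0 ≤ y) (h1 : y ≤ 1) :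
    |1 + κ * y| ≤ 1 + K := by
  refine (abs_add_le _ _).trans ?_
  rw [abs_one, abs_mul, abs_of_nonneg h0]
  have := abs_nonneg κ
  nlinarith

lemma abs_phi_le {j m : ℕ} (κ : Fin j → ℝ) (K : ℝ) (hK : ∀ s, |κ s| ≤ K) (S : Finset G)
    (σ : Fin j → Fin m → G) : |phi κ S σ| ≤ (1 + K) ^ j := by
  unfold phi
  rw [Finset.abs_prod]
  refine (prod_le_prod (fun i _ => abs_nonneg _) (g := fun _ => 1 + K) fun s _ => ?_).trans
    (by simp)
  exact abs_factor_le (hK s) (by linarith [mis_le_one S (σ s)]) (by linarith [mis_nonneg S (σ s)])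

lemma expect_phi (T : Finset G) (hT : T.Nonempty) {j m : ℕ} (κ : Fin j → ℝ) (S : Finset G) :
    𝔼 σ : Fin j → Fin m → T, phi κ S (fun s i => (σ s i : G))
      = psi T.card m κ (T ∩ S).card := by
  have : Nonempty T := hT.to_subtype
  unfold phi psi
  rw [expect_pi_prod (fun (s : Fin j) (ρ : Fin m → T) =>
    1 + κ s * (1 - mis S (fun i => (ρ i : G))))]
  refine prod_congr rfl fun s _ => ?_
  rw [expect_add_distrib, ← mul_expect, expect_sub_distrib, expect_mis T hT, Fintype.expect_const]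
  rfl

lemma card_inter_div_le (T S : Finset G) (hT : T.Nonempty) :
    ((T ∩ S).card : ℝ) / T.card ≤ 1 := by
  have hn : (0 : ℝ) < T.card := by exact_mod_cast hT.card_pos
  rw [div_le_one hn]
  exact_mod_cast card_le_card inter_subset_left

lemma expect_phi_mul (T : Finset G) (hT : T.Nonempty) {j m : ℕ} (κ : Fin j → ℝ) (K : ℝ)
    (hK0 : 0 ≤ K) (hK : ∀ s, |κ s| ≤ K) (S S' : Finset G) :
    𝔼 σ : Fin j → Fin m → T, phi κ S (fun s i => (σ s i : G)) * phi κ S' (fun s i => (σ s i : G))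
      ≤ psi T.card m κ (T ∩ S).card * psi T.card m κ (T ∩ S').card
        + j * ((1 + K) ^ j) ^ 2 * (m * (((T ∩ S ∩ S').card : ℝ) / T.card
          + (T ∩ S).card / T.card * ((T ∩ S').card / T.card))) := by
  have : Nonempty T := hT.to_subtype
  have hn : (0 : ℝ) < T.card := by exact_mod_cast hT.card_pos
  set x : ℝ := ((T ∩ S).card : ℝ) / T.card with hx
  set x' : ℝ := ((T ∩ S').card : ℝ) / T.card with hx'
  set o : ℝ := ((T ∩ S ∩ S').card : ℝ) / T.card with ho
  have hx0 : 0 ≤ x := by positivity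
  have hx0' : 0 ≤ x' := by positivity
  have ho0 : 0 ≤ o := by positivity
  have hx1 : x ≤ 1 := card_inter_div_le T S hT
  have hx1' : x' ≤ 1 := card_inter_div_le T S' hT
  have hun : ((T ∩ (S ∪ S')).card : ℝ) / T.card = x + x' - o := by
    have h := card_union_add_card_inter (T ∩ S) (T ∩ S')
    rw [← inter_union_distrib_left] at h
    have h' : T ∩ S ∩ (T ∩ S') = T ∩ S ∩ S' := by
      ext y; simp only [mem_inter]; tauto
    rw [h'] at h
    have h'' : ((T ∩ (S ∪ S')).card : ℝ) + (T ∩ S ∩ S').card = (T ∩ S).card + (T ∩ S').card := by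
      exact_mod_cast h
    rw [hx, hx', ho]
    field_simp
    linarith
  have hun1 : x + x' - o ≤ 1 := hun ▸ card_inter_div_le T (S ∪ S') hT
  have hun0 : 0 ≤ x + x' - o := by rw [← hun]; positivity
  set δ : ℝ := m * (o + x * x') with hδ
  have hδ0 : 0 ≤ δ := by positivity
  have hcov : |(1 - (x + x' - o)) ^ m - ((1 - x) * (1 - x')) ^ m| ≤ δ := by
    refine (abs_pow_sub_pow_le _ _ _).trans ?_
    have h1 : |1 - (x + x' - o) - (1 - x) * (1 - x')| ≤ o + x * x' := by
      rw [abs_le]; constructor <;> nlinarith [mul_nonneg hx0 hx0']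
    have h2 : max |1 - (x + x' - o)| |(1 - x) * (1 - x')| ≤ 1 := by
      refine max_le ?_ ?_
      · rw [abs_le]; constructor <;> linarith
      · rw [abs_of_nonneg (mul_nonneg (by linarith) (by linarith))]
        nlinarith
    have h3 : max |1 - (x + x' - o)| |(1 - x) * (1 - x')| ^ (m - 1) ≤ 1 :=
      pow_le_one₀ (le_max_of_le_left (abs_nonneg _)) h2
    calc _ ≤ (o + x * x') * m * 1 := by gcongr
      _ = δ := by rw [hδ]; ring
  have hE : ∀ s, 𝔼 ρ : Fin m → T, (1 + κ s * (1 - mis S (fun i => (ρ i : G))))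
        * (1 + κ s * (1 - mis S' (fun i => (ρ i : G))))
      = (1 + κ s * yy T.card m (T ∩ S).card) * (1 + κ s * yy T.card m (T ∩ S').card)
        + κ s ^ 2 * ((1 - (x + x' - o)) ^ m - ((1 - x) * (1 - x')) ^ m) := by
    intro s
    have e : ∀ ρ : Fin m → T, (1 + κ s * (1 - mis S (fun i => (ρ i : G))))
        * (1 + κ s * (1 - mis S' (fun i => (ρ i : G))))
        = (1 + κ s) ^ 2 - (κ s + κ s ^ 2) * mis S (fun i => (ρ i : G))
          - (κ s + κ s ^ 2) * mis S' (fun i => (ρ i : G))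
          + κ s ^ 2 * mis (S ∪ S') (fun i => (ρ i : G)) := by
      intro ρ; rw [mis_union]; ring
    simp_rw [e]
    rw [expect_add_distrib, expect_sub_distrib, expect_sub_distrib, ← mul_expect, ← mul_expect,
      ← mul_expect, expect_mis T hT, expect_mis T hT, expect_mis T hT, Fintype.expect_const, hun]
    simp only [yy, ← hx, ← hx', mul_pow]
    ring
  have e1 : 𝔼 σ : Fin j → Fin m → T,
      phi κ S (fun s i => (σ s i : G)) * phi κ S' (fun s i => (σ s i : G))
      = ∏ s, 𝔼 ρ : Fin m → T, (1 + κ s * (1 - mis S (fun i => (ρ i : G))))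
        * (1 + κ s * (1 - mis S' (fun i => (ρ i : G)))) := by
    rw [← expect_pi_prod (fun (s : Fin j) (ρ : Fin m → T) =>
      (1 + κ s * (1 - mis S (fun i => (ρ i : G)))) * (1 + κ s * (1 - mis S' (fun i => (ρ i : G)))))]
    refine expect_congr rfl fun σ _ => ?_
    unfold phi
    rw [← prod_mul_distrib]
  have e2 : psi T.card m κ (T ∩ S).card * psi T.card m κ (T ∩ S').card
      = ∏ s, (1 + κ s * yy T.card m (T ∩ S).card) * (1 + κ s * yy T.card m (T ∩ S').card) := by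
    unfold psi; rw [← prod_mul_distrib]
  have hy : ∀ z : ℝ, 0 ≤ z → z ≤ 1 → 0 ≤ 1 - (1 - z) ^ m ∧ 1 - (1 - z) ^ m ≤ 1 := by
    intro z h0 h1
    have := pow_le_one₀ (n := m) (show 0 ≤ 1 - z by linarith) (by linarith)
    have := pow_nonneg (show 0 ≤ 1 - z by linarith) m
    constructor <;> linarith
  have hb := abs_prod_sub_prod_le univ
    (fun s => 𝔼 ρ : Fin m → T, (1 + κ s * (1 - mis S (fun i => (ρ i : G))))
        * (1 + κ s * (1 - mis S' (fun i => (ρ i : G)))))
    (fun s => (1 + κ s * yy T.card m (T ∩ S).card) * (1 + κ s * yy T.card m (T ∩ S').card))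
    ((1 + K) ^ 2) δ
    (by
      intro s _
      refine (abs_expect_le _ _).trans (expect_le univ_nonempty fun ρ _ => ?_)
      rw [abs_mul, sq]
      refine mul_le_mul ?_ ?_ (abs_nonneg _) (by linarith)
      · exact abs_factor_le (hK s) (by linarith [mis_le_one S (fun i => (ρ i : G))])
          (by linarith [mis_nonneg S (fun i => (ρ i : G))])
      · exact abs_factor_le (hK s) (by linarith [mis_le_one S' (fun i => (ρ i : G))])
          (by linarith [mis_nonneg S' (fun i => (ρ i : G))]))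
    (by
      intro s _
      rw [abs_mul, sq]
      refine mul_le_mul ?_ ?_ (abs_nonneg _) (by linarith)
      · exact abs_factor_le (hK s) (hy x hx0 hx1).1 (hy x hx0 hx1).2
      · exact abs_factor_le (hK s) (hy x' hx0' hx1').1 (hy x' hx0' hx1').2)
    (by
      intro s _
      simp only [hE]
      rw [add_sub_cancel_left, abs_mul]
      refine mul_le_mul ?_ hcov (abs_nonneg _) (by positivity)
      rw [abs_pow]
      exact pow_le_pow_left₀ (abs_nonneg _) ((hK s).trans (by linarith)) 2)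
    hδ0 (by positivity)
  rw [e1, e2]
  have := (abs_le.1 hb).2
  simp only [card_univ, Fintype.card_fin] at this
  rw [← pow_mul, mul_comm 2 j, pow_mul] at this
  linarith

lemma expect_pair {α β : Type*} [Fintype α] [DecidableEq α] [Fintype β] [Nonempty β]
    (g : β → ℝ) (hg : 𝔼 x, g x = 0) {i i' : α} (h : i ≠ i') :
    𝔼 σ : α → β, g (σ i) * g (σ i') = 0 := by
  have e : ∀ σ : α → β, g (σ i) * g (σ i')
      = ∏ s, (if s = i then g (σ s) else if s = i' then g (σ s) else 1) := by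
    intro σ
    rw [← mul_prod_erase univ _ (mem_univ i), if_pos rfl,
      ← mul_prod_erase _ _ (mem_erase.2 ⟨h.symm, mem_univ i'⟩), if_neg h.symm, if_pos rfl,
      prod_eq_one, mul_one]
    intro s hs
    simp only [mem_erase, mem_univ, and_true] at hs
    rw [if_neg hs.2, if_neg hs.1]
  simp_rw [e]
  rw [expect_pi_prod (fun s x => if s = i then g x else if s = i' then g x else 1)]
  refine prod_eq_zero (mem_univ i) ?_
  simpa using hg

lemma expect_sample_sq {β : Type*} [Fintype β] [Nonempty β] {m : ℕ} (hm : 0 < m) (g : β → ℝ)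
    (B : ℝ) (hg : ∀ x, |g x| ≤ B) :
    𝔼 σ : Fin m → β, ((𝔼 i, g (σ i)) - 𝔼 x, g x) ^ 2 ≤ 4 * B ^ 2 / m := by
  have : Nonempty (Fin m) := ⟨⟨0, hm⟩⟩
  have hm' : (0 : ℝ) < m := by exact_mod_cast hm
  set μ := 𝔼 x, g x with hμ
  have hμB : |μ| ≤ B := (abs_expect_le _ _).trans (expect_le univ_nonempty fun x _ => hg x)
  set g₀ : β → ℝ := fun x => g x - μ with hg₀
  have h0 : 𝔼 x, g₀ x = 0 := by
    simp only [hg₀]; rw [expect_sub_distrib, Fintype.expect_const, sub_self]
  have hb : ∀ x, |g₀ x| ≤ 2 * B := fun x => by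
    simp only [hg₀]
    exact (abs_sub _ _).trans (by linarith [hg x])
  have e : ∀ σ : Fin m → β, ((𝔼 i, g (σ i)) - μ) ^ 2
      = 𝔼 i, 𝔼 i', g₀ (σ i) * g₀ (σ i') := by
    intro σ
    rw [← expect_mul_expect, ← sq]
    congr 1
    simp only [hg₀]
    rw [expect_sub_distrib, Fintype.expect_const]
  simp_rw [e]
  rw [expect_comm]
  refine expect_le univ_nonempty fun i _ => ?_
  rw [expect_comm, Fintype.expect_eq_sum_div_card, Fintype.card_fin]
  refine div_le_div_of_nonneg_right ?_ hm'.le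
  rw [sum_eq_single i (fun i' _ h => expect_pair g₀ h0 (Ne.symm h)) (by simp)]
  refine expect_le univ_nonempty fun σ _ => ?_
  have := hb (σ i)
  have h2 : g₀ (σ i) * g₀ (σ i) = |g₀ (σ i)| ^ 2 := by rw [sq_abs, sq]
  rw [h2]
  calc _ ≤ (2 * B) ^ 2 := pow_le_pow_left₀ (abs_nonneg _) this 2
    _ = _ := by ring

lemma overlap_bound (T : Finset G) (hT : T.Nonempty) (S : G → Finset G) (τ : ℝ)
    (hdeg : ∀ t' ∈ T, ((T.filter fun t => t' ∈ S t).card : ℝ) ≤ τ) :
    𝔼 t : T, 𝔼 t₀ : T, (((T ∩ S t ∩ S t₀).card : ℝ) / T.card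
          + (T ∩ S t).card / T.card * ((T ∩ S t₀).card / T.card))
      ≤ 2 * τ / T.card ^ 2 * 𝔼 t : T, ((T ∩ S t).card : ℝ) := by
  have : Nonempty T := hT.to_subtype
  have hn : (0 : ℝ) < T.card := by exact_mod_cast hT.card_pos
  have hc : ∀ X : Finset G, ((T ∩ X).card : ℝ) = ∑ t' ∈ T, if t' ∈ X then (1 : ℝ) else 0 := by
    intro X; rw [sum_boole, filter_mem_eq_inter]
  have hd : ∀ t' ∈ T, ∑ t ∈ T, (if t' ∈ S t then (1 : ℝ) else 0) ≤ τ := by
    intro t' ht'; rw [sum_boole]; exact hdeg t' ht'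
  have h1 : ∀ t : G, ∑ t₀ ∈ T, ((T ∩ S t ∩ S t₀).card : ℝ) ≤ τ * (T ∩ S t).card := by
    intro t
    have e : ∀ t₀, ((T ∩ S t ∩ S t₀).card : ℝ)
        = ∑ t' ∈ T ∩ S t, if t' ∈ S t₀ then (1 : ℝ) else 0 := by
      intro t₀; rw [sum_boole, filter_mem_eq_inter]
    simp_rw [e]
    rw [sum_comm]
    calc _ ≤ ∑ _t' ∈ T ∩ S t, τ := sum_le_sum fun t' ht' => hd t' (mem_inter.1 ht').1
      _ = _ := by simp [mul_comm]
  have h2 : ∑ t₀ ∈ T, ((T ∩ S t₀).card : ℝ) ≤ τ * T.card := by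
    simp_rw [hc]
    rw [sum_comm]
    calc _ ≤ ∑ _t' ∈ T, τ := sum_le_sum hd
      _ = _ := by simp [mul_comm]
  rw [mul_expect]
  refine expect_le_expect fun t _ => ?_
  rw [expect_coe T (fun t₀ => ((T ∩ S t ∩ S t₀).card : ℝ) / T.card
          + (T ∩ S t).card / T.card * ((T ∩ S t₀).card / T.card)), sum_add_distrib, ← sum_div,
    ← mul_sum, ← sum_div]
  have h3 := h1 t
  have h4 : (0 : ℝ) ≤ (T ∩ S t).card := by positivity
  calc _ ≤ (τ * (T ∩ S t).card / T.card
        + (T ∩ S t).card / T.card * (τ * T.card / T.card)) / T.card := by gcongr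
    _ = (τ * (T ∩ S t).card + (T ∩ S t).card * τ) / T.card ^ 2 := by field_simp
    _ = _ := by ring

/-- The variance bound for the averaged product estimator. -/
lemma variance_bound (T : Finset G) (hT : T.Nonempty) (S : G → Finset G) (τ : ℝ)
    (hdeg : ∀ t' ∈ T, ((T.filter fun t => t' ∈ S t).card : ℝ) ≤ τ)
    {m j : ℕ} (hm : 0 < m) (κ : Fin j → ℝ) (K : ℝ) (hK0 : 0 ≤ K) (hK : ∀ s, |κ s| ≤ K) :
    𝔼 σ : Fin j → Fin m → T, 𝔼 σ₀ : Fin m → T,
      ((𝔼 i, phi κ (S (σ₀ i)) (fun s i' => (σ s i' : G)))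
        - 𝔼 t : T, psi T.card m κ (T ∩ S t).card) ^ 2
      ≤ 8 * ((1 + K) ^ j) ^ 2 / m
        + 4 * j * ((1 + K) ^ j) ^ 2 * m * τ / T.card ^ 2 * 𝔼 t : T, ((T ∩ S t).card : ℝ) := by
  have : Nonempty T := hT.to_subtype
  set B := (1 + K) ^ j with hB
  set F := 𝔼 t : T, psi T.card m κ (T ∩ S t).card with hF
  set Φ : (Fin j → Fin m → T) → ℝ := fun σ => 𝔼 t : T, phi κ (S t) (fun s i' => (σ s i' : G))
    with hΦ
  have h1 : ∀ σ : Fin j → Fin m → T, 𝔼 σ₀ : Fin m → T,
      ((𝔼 i, phi κ (S (σ₀ i)) (fun s i' => (σ s i' : G))) - F) ^ 2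
        ≤ 8 * B ^ 2 / m + 2 * (Φ σ - F) ^ 2 := by
    intro σ
    have h2 := expect_sample_sq hm (fun t : T => phi κ (S t) (fun s i' => (σ s i' : G))) B
      (fun t => abs_phi_le κ K hK _ _)
    calc _ ≤ 𝔼 σ₀ : Fin m → T,
          (2 * ((𝔼 i, phi κ (S (σ₀ i)) (fun s i' => (σ s i' : G))) - Φ σ) ^ 2
            + 2 * (Φ σ - F) ^ 2) := by
          refine expect_le_expect fun σ₀ _ => ?_
          nlinarith [sq_nonneg ((𝔼 i, phi κ (S (σ₀ i)) (fun s i' => (σ s i' : G))) - Φ σ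
            - (Φ σ - F))]
      _ = 2 * (𝔼 σ₀ : Fin m → T,
          ((𝔼 i, phi κ (S (σ₀ i)) (fun s i' => (σ s i' : G))) - Φ σ) ^ 2)
            + 2 * (Φ σ - F) ^ 2 := by
          rw [expect_add_distrib, ← mul_expect, Fintype.expect_const]
      _ ≤ 2 * (4 * B ^ 2 / m) + 2 * (Φ σ - F) ^ 2 := by gcongr
      _ = _ := by ring
  have hEΦ : 𝔼 σ, Φ σ = F := by
    simp only [hΦ, hF]
    rw [expect_comm]
    exact expect_congr rfl fun t _ => expect_phi T hT κ (S t)
  have h3 : 𝔼 σ, (Φ σ - F) ^ 2 = (𝔼 σ, Φ σ * Φ σ) - F * F := by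
    have e : ∀ σ, (Φ σ - F) ^ 2 = Φ σ * Φ σ - 2 * F * Φ σ + F * F := fun σ => by ring
    simp_rw [e]
    rw [expect_add_distrib, expect_sub_distrib, ← mul_expect, hEΦ, Fintype.expect_const]
    ring
  have h4 : (𝔼 σ, Φ σ * Φ σ) ≤ F * F
      + j * B ^ 2 * (m * (2 * τ / T.card ^ 2 * 𝔼 t : T, ((T ∩ S t).card : ℝ))) := by
    have h5 := overlap_bound T hT S τ hdeg
    calc (𝔼 σ, Φ σ * Φ σ) = 𝔼 t : T, 𝔼 t₀ : T, 𝔼 σ : Fin j → Fin m → T,
          phi κ (S t) (fun s i => (σ s i : G)) * phi κ (S t₀) (fun s i => (σ s i : G)) := by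
          simp only [hΦ]
          simp_rw [expect_mul_expect]
          rw [expect_comm]
          exact expect_congr rfl fun t _ => expect_comm _ _ _
      _ ≤ 𝔼 t : T, 𝔼 t₀ : T, (psi T.card m κ (T ∩ S t).card * psi T.card m κ (T ∩ S t₀).card
          + j * B ^ 2 * (m * (((T ∩ S t ∩ S t₀).card : ℝ) / T.card
            + (T ∩ S t).card / T.card * ((T ∩ S t₀).card / T.card)))) :=
          expect_le_expect fun t _ => expect_le_expect fun t₀ _ =>
            expect_phi_mul T hT κ K hK0 hK _ _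
      _ = F * F + j * B ^ 2 * (m * 𝔼 t : T, 𝔼 t₀ : T, (((T ∩ S t ∩ S t₀).card : ℝ) / T.card
            + (T ∩ S t).card / T.card * ((T ∩ S t₀).card / T.card))) := by
          simp only [hF]
          rw [expect_mul_expect, mul_expect, mul_expect, ← expect_add_distrib]
          refine expect_congr rfl fun t _ => ?_
          rw [mul_expect, mul_expect, ← expect_add_distrib]
      _ ≤ _ := by gcongr
  calc _ ≤ 𝔼 σ, (8 * B ^ 2 / m + 2 * (Φ σ - F) ^ 2) := expect_le_expect fun σ _ => h1 σ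
    _ = 8 * B ^ 2 / m + 2 * 𝔼 σ, (Φ σ - F) ^ 2 := by
        rw [expect_add_distrib, ← mul_expect, Fintype.expect_const]
    _ ≤ 8 * B ^ 2 / m
        + 2 * (j * B ^ 2 * (m * (2 * τ / T.card ^ 2 * 𝔼 t : T, ((T ∩ S t).card : ℝ)))) := by
        rw [h3]; linarith
    _ = _ := by ring

end Pool.Agent.Lib.Cov39
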