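import Pool.Agent.Lib.MP_e20aca_co.Seq
import Pool.Agent.Lib.MP_e20aca_co.Var

/-!
The transfer lemma: a union bound over all small samples lets one compare, for every set `T` at
once, averages over the terms of a random sequence with averages over the whole group.
-/

set_option autoImplicit false

open Finset
open scoped BigOperators

namespace Pool.Agent.Lib.Cov39

variable {G : Type*} [DecidableEq G] [Fintype G] [AddCommGroup G]

/-- The elements `t'` with `t' - a ∉ Z` and `a + t - t' ∈ P`. -/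
def nb (Z P : Finset G) (a t : G) : Finset G :=
  univ.filter (fun t' => t' - a ∉ Z ∧ a + t - t' ∈ P)

/-- Number of representations `x = t + b` with `t ∈ T`, `b ∈ P`. -/
def rr (T P : Finset G) (x : G) : ℕ := (T.filter fun t' => x - t' ∈ P).card

/-- Truncation to `[0, Λ]`. -/
noncomputable def tr (Λ x : ℝ) : ℝ := max 0 (min x Λ)

/-- The estimator computed from the samples. -/
noncomputable def est {j m : ℕ} (κ : Fin j → ℝ) (Z : Finset G) (σ₀ : Fin m → G)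
    (σ : Fin j → Fin m → G) (P : Finset G) (a : G) : ℝ :=
  𝔼 i, phi κ (nb Z P a (σ₀ i)) σ

/-- The quantity estimated. -/
noncomputable def Ft {j : ℕ} (T : Finset G) (m : ℕ) (κ : Fin j → ℝ) (Z P : Finset G) (a : G) : ℝ :=
  𝔼 t : T, psi T.card m κ (T ∩ nb Z P a t).card

/-- The good event of one experiment. -/
def Good2 {k : ℕ} (a : Fin k → G) (m zm : ℕ) {j : ℕ} (κ : Fin j → ℝ) (Λ L : ℝ) (w : ℕ → ℝ) : Prop :=
  ∀ (σ₀ : Fin m → G) (σ : Fin j → Fin m → G) (ζ : Fin zm → G),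
    ∑ l : Fin k, w l * tr Λ (est κ (univ.image ζ) σ₀ σ (past a l) (a l))
      ≤ 2 * ∑ l : Fin k, (𝔼 x, w l * tr Λ (est κ (univ.image ζ) σ₀ σ (past a l) x)) + Λ * L

lemma tr_nonneg (Λ x : ℝ) : 0 ≤ tr Λ x := le_max_left _ _

lemma tr_le {Λ : ℝ} (hΛ : 0 ≤ Λ) (x : ℝ) : tr Λ x ≤ Λ := max_le hΛ (min_le_right _ _)

lemma tr_le_self (Λ : ℝ) {x : ℝ} (hx : 0 ≤ x) : tr Λ x ≤ x := max_le hx (min_le_left _ _)

lemma le_tr {Λ x y : ℝ} (h1 : y ≤ x) (h2 : y ≤ Λ) : y ≤ tr Λ x :=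
  le_max_of_le_right (le_min h1 h2)

lemma tr_le_add (Λ x y : ℝ) : tr Λ x ≤ tr Λ y + |x - y| := by
  unfold tr
  have h1 := le_abs_self (x - y)
  have h2 := abs_nonneg (x - y)
  have h3 := le_max_left 0 (min y Λ)
  have h4 := le_max_right 0 (min y Λ)
  refine max_le (by linarith) ?_
  rcases le_total y Λ with h | h
  · rw [min_eq_left h] at h4 ⊢; linarith [min_le_left x Λ]
  · rw [min_eq_right h] at h4 ⊢; linarith [min_le_right x Λ]

open Classical in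
lemma card_not_good2 (k m zm : ℕ) {j : ℕ} (κ : Fin j → ℝ) (Λ L : ℝ) (hΛ : 0 < Λ) (w : ℕ → ℝ)
    (hw0 : ∀ l, 0 ≤ w l) (hw1 : ∀ l, w l ≤ 1) :
    (((univ : Finset (Fin k → G)).filter (fun a => ¬ Good2 a m zm κ Λ L w)).card : ℝ)
      ≤ (Fintype.card G : ℝ) ^ ((j + 1) * m + zm) * (Real.exp (-L) * (Fintype.card G : ℝ) ^ k) := by
  set bad : (Fin m → G) × (Fin j → Fin m → G) × (Fin zm → G) → Finset (Fin k → G) := fun π =>
    univ.filter (fun a =>
      2 * ∑ l : Fin k, (𝔼 x, w l * tr Λ (est κ (univ.image π.2.2) π.1 π.2.1 (past a l) x)) + Λ * L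
        < ∑ l : Fin k, w l * tr Λ (est κ (univ.image π.2.2) π.1 π.2.1 (past a l) (a l))) with hbad
  have hsub : (univ : Finset (Fin k → G)).filter (fun a => ¬ Good2 a m zm κ Λ L w)
      ⊆ univ.biUnion bad := by
    intro a ha
    have ha' := (mem_filter.1 ha).2
    unfold Good2 at ha'
    push Not at ha'
    obtain ⟨σ₀, σ, ζ, h⟩ := ha'
    exact mem_biUnion.2 ⟨(σ₀, σ, ζ), mem_univ _, mem_filter.2 ⟨mem_univ _, h⟩⟩
  have hb : ∀ π, ((bad π).card : ℝ) ≤ Real.exp (-L) * (Fintype.card G : ℝ) ^ k := by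
    intro π
    exact seq_tail k (fun l P x => w l * tr Λ (est κ (univ.image π.2.2) π.1 π.2.1 P x)) Λ L hΛ
      (fun l P x => mul_nonneg (hw0 l) (tr_nonneg _ _))
      (fun l P x => (mul_le_of_le_one_left (tr_nonneg _ _) (hw1 l)).trans (tr_le hΛ.le _))
  calc _ ≤ ((univ.biUnion bad).card : ℝ) := by exact_mod_cast card_le_card hsub
    _ ≤ ∑ π, ((bad π).card : ℝ) := by exact_mod_cast card_biUnion_le
    _ ≤ ∑ _π : (Fin m → G) × (Fin j → Fin m → G) × (Fin zm → G),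
          Real.exp (-L) * (Fintype.card G : ℝ) ^ k := sum_le_sum fun π _ => hb π
    _ = _ := by
      simp only [sum_const, card_univ, Fintype.card_prod, Fintype.card_fun, Fintype.card_fin,
        nsmul_eq_mul]
      push_cast
      ring

lemma abs_le_add_sq_div {η : ℝ} (hη : 0 < η) (u : ℝ) : |u| ≤ η + u ^ 2 / η := by
  rw [← sq_abs, ← sub_le_iff_le_add', le_div_iff₀ hη]
  nlinarith [sq_nonneg (|u| - η), abs_nonneg u]

lemma card_inter_nb_le (T Z P A : Finset G) (hP : P ⊆ A) (x t : G) :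
    (T ∩ nb Z P x t).card ≤ rr T A (x + t) := by
  refine card_le_card fun t' ht' => ?_
  simp only [nb, mem_inter, mem_filter, mem_univ, true_and] at ht' ⊢
  exact ⟨ht'.1, hP ht'.2.2⟩

lemma expect_abs_est_sub (T : Finset G) (hT : T.Nonempty) (Z P A : Finset G) (hP : P ⊆ A) (τ : ℝ)
    (hτ : 0 ≤ τ) (hZ : ∀ z ∉ Z, ((T.filter fun t => t - z ∈ A).card : ℝ) ≤ τ)
    {m j : ℕ} (hm : 0 < m) (κ : Fin j → ℝ) (K : ℝ) (hK0 : 0 ≤ K) (hK : ∀ s, |κ s| ≤ K)
    (η : ℝ) (hη : 0 < η) (x : G) :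
    𝔼 σ : Fin j → Fin m → T, 𝔼 σ₀ : Fin m → T,
      |est κ Z (fun i => (σ₀ i : G)) (fun s i' => (σ s i' : G)) P x - Ft T m κ Z P x|
      ≤ η + (8 * ((1 + K) ^ j) ^ 2 / m + 4 * j * ((1 + K) ^ j) ^ 2 * m * τ / T.card ^ 2
          * 𝔼 t : T, (rr T A (x + t) : ℝ)) / η := by
  have : Nonempty T := hT.to_subtype
  have hv := variance_bound T hT (nb Z P x) τ (by
    intro t' _
    by_cases h : t' - x ∈ Z
    · have : (T.filter fun t => t' ∈ nb Z P x t) = ∅ := by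
        refine filter_eq_empty_iff.2 fun t _ => ?_
        simp [nb, h]
      rw [this]; simpa using hτ
    · refine le_trans ?_ (hZ _ h)
      refine Nat.cast_le.2 (card_le_card fun t ht => ?_)
      simp only [nb, mem_filter, mem_univ, true_and] at ht ⊢
      refine ⟨ht.1, hP ?_⟩
      have e : t - (t' - x) = x + t - t' := by abel
      rw [e]; exact ht.2.2) hm κ K hK0 hK
  calc _ ≤ 𝔼 σ : Fin j → Fin m → T, 𝔼 σ₀ : Fin m → T,
        (η + (est κ Z (fun i => (σ₀ i : G)) (fun s i' => (σ s i' : G)) P x - Ft T m κ Z P x) ^ 2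
          / η) := expect_le_expect fun σ _ => expect_le_expect fun σ₀ _ => abs_le_add_sq_div hη _
    _ = η + (𝔼 σ : Fin j → Fin m → T, 𝔼 σ₀ : Fin m → T,
        (est κ Z (fun i => (σ₀ i : G)) (fun s i' => (σ s i' : G)) P x - Ft T m κ Z P x) ^ 2)
          / η := by
        simp_rw [expect_add_distrib, Fintype.expect_const, expect_div]
    _ ≤ _ := by
        gcongr
        refine hv.trans ?_
        gcongr with t
        exact card_inter_nb_le T Z P A hP x t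

omit [DecidableEq G] in
lemma expect_add_right (T : Finset G) (hT : T.Nonempty) (g : G → ℝ) :
    𝔼 x : G, 𝔼 t : T, g (x + t) = 𝔼 x, g x := by
  have : Nonempty T := hT.to_subtype
  rw [expect_comm]
  have e : ∀ t : T, 𝔼 x : G, g (x + t) = 𝔼 x, g x := fun t =>
    Fintype.expect_equiv (Equiv.addRight (t : G)) _ _ fun x => rfl
  simp_rw [e]
  exact Fintype.expect_const _

/-- The transfer lemma. -/
lemma transfer {k : ℕ} (a : Fin k → G) {m zm j : ℕ} (κ : Fin j → ℝ) (Λ L : ℝ) (w : ℕ → ℝ)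
    (hw0 : ∀ l, 0 ≤ w l) (hw1 : ∀ l, w l ≤ 1) (hG : Good2 a m zm κ Λ L w)
    (T : Finset G) (hT : T.Nonempty) (ζ : Fin zm → G) (τ : ℝ) (hτ : 0 ≤ τ)
    (hZ : ∀ z ∉ univ.image ζ, ((T.filter fun t => t - z ∈ univ.image a).card : ℝ) ≤ τ)
    (hm : 0 < m) (K : ℝ) (hK0 : 0 ≤ K) (hK : ∀ s, |κ s| ≤ K) (η : ℝ) (hη : 0 < η)
    (E₁ E₂ : ℝ) (hE₁ : ∑ l : Fin k, 𝔼 t : T, (rr T (univ.image a) (a l + t) : ℝ) ≤ E₁)
    (hE₂ : 𝔼 x, (rr T (univ.image a) x : ℝ) ≤ E₂) :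
    ∑ l : Fin k, w l * tr Λ (Ft T m κ (univ.image ζ) (past a l) (a l))
      ≤ 2 * ∑ l : Fin k, (𝔼 x, w l * tr Λ (Ft T m κ (univ.image ζ) (past a l) x)) + Λ * L
        + (3 * k * (η + 8 * ((1 + K) ^ j) ^ 2 / m / η)
          + 4 * j * ((1 + K) ^ j) ^ 2 * m * τ / T.card ^ 2 / η * (E₁ + 2 * k * E₂)) := by
  have : Nonempty T := hT.to_subtype
  set Z := univ.image ζ with hZdef
  set A := univ.image a with hA
  set V₁ := 8 * ((1 + K) ^ j) ^ 2 / m with hV₁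
  set V₂ := 4 * j * ((1 + K) ^ j) ^ 2 * m * τ / T.card ^ 2 with hV₂
  have hV₂0 : 0 ≤ V₂ := by positivity
  set D : (Fin j → Fin m → T) → (Fin m → T) → ℕ → G → ℝ := fun σ σ₀ l x =>
    |est κ Z (fun i => (σ₀ i : G)) (fun s i' => (σ s i' : G)) (past a l) x
      - Ft T m κ Z (past a l) x| with hD
  have hD0 : ∀ σ σ₀ l x, 0 ≤ D σ σ₀ l x := fun _ _ _ _ => abs_nonneg _
  have h1 : ∀ σ σ₀, ∑ l : Fin k, w l * tr Λ (Ft T m κ Z (past a l) (a l))
      ≤ 2 * ∑ l : Fin k, (𝔼 x, w l * tr Λ (Ft T m κ Z (past a l) x)) + Λ * L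
        + (∑ l : Fin k, D σ σ₀ l (a l) + 2 * ∑ l : Fin k, 𝔼 x, D σ σ₀ l x) := by
    intro σ σ₀
    have h2 := hG (fun i => (σ₀ i : G)) (fun s i' => (σ s i' : G)) ζ
    have h3 : ∑ l : Fin k, w l * tr Λ (Ft T m κ Z (past a l) (a l))
        ≤ ∑ l : Fin k, w l * tr Λ (est κ Z (fun i => (σ₀ i : G)) (fun s i' => (σ s i' : G))
          (past a l) (a l)) + ∑ l : Fin k, D σ σ₀ l (a l) := by
      rw [← sum_add_distrib]
      refine sum_le_sum fun l _ => ?_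
      have h4 := tr_le_add Λ (Ft T m κ Z (past a l) (a l))
        (est κ Z (fun i => (σ₀ i : G)) (fun s i' => (σ s i' : G)) (past a l) (a l))
      rw [abs_sub_comm] at h4
      have h5 := mul_le_mul_of_nonneg_left h4 (hw0 l)
      have h6 := mul_le_of_le_one_left (hD0 σ σ₀ l (a l)) (hw1 l)
      simp only [hD] at h6 ⊢
      linarith
    have h7 : ∑ l : Fin k, (𝔼 x, w l * tr Λ (est κ Z (fun i => (σ₀ i : G))
          (fun s i' => (σ s i' : G)) (past a l) x))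
        ≤ ∑ l : Fin k, (𝔼 x, w l * tr Λ (Ft T m κ Z (past a l) x))
          + ∑ l : Fin k, 𝔼 x, D σ σ₀ l x := by
      rw [← sum_add_distrib]
      refine sum_le_sum fun l _ => ?_
      rw [← expect_add_distrib]
      refine expect_le_expect fun x _ => ?_
      have h4 := tr_le_add Λ
        (est κ Z (fun i => (σ₀ i : G)) (fun s i' => (σ s i' : G)) (past a l) x)
        (Ft T m κ Z (past a l) x)
      have h5 := mul_le_mul_of_nonneg_left h4 (hw0 l)
      have h6 := mul_le_of_le_one_left (hD0 σ σ₀ l x) (hw1 l)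
      simp only [hD] at h6 ⊢
      linarith
    linarith
  have h8 : ∀ (l : ℕ) (x : G), 𝔼 σ, 𝔼 σ₀, D σ σ₀ l x
      ≤ η + (V₁ + V₂ * 𝔼 t : T, (rr T A (x + t) : ℝ)) / η := fun l x =>
    expect_abs_est_sub T hT Z (past a l) A (past_subset a l) τ hτ hZ hm κ K hK0 hK η hη x
  have h9 : 𝔼 σ, 𝔼 σ₀, (∑ l : Fin k, D σ σ₀ l (a l) + 2 * ∑ l : Fin k, 𝔼 x, D σ σ₀ l x)
      = ∑ l : Fin k, (𝔼 σ, 𝔼 σ₀, D σ σ₀ l (a l))
        + 2 * ∑ l : Fin k, 𝔼 x, 𝔼 σ, 𝔼 σ₀, D σ σ₀ l x := by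
    simp_rw [expect_add_distrib, ← mul_expect, expect_sum_comm]
    congr 2
    refine sum_congr rfl fun l _ => ?_
    rw [expect_comm (univ : Finset G)]
    exact expect_congr rfl fun σ _ => expect_comm _ _ _
  have h10 : ∑ l : Fin k, (𝔼 σ, 𝔼 σ₀, D σ σ₀ l (a l)) ≤ k * (η + V₁ / η) + V₂ / η * E₁ := by
    calc _ ≤ ∑ l : Fin k, (η + (V₁ + V₂ * 𝔼 t : T, (rr T A (a l + t) : ℝ)) / η) :=
          sum_le_sum fun l _ => h8 l (a l)
      _ = ∑ l : Fin k, ((η + V₁ / η) + V₂ / η * 𝔼 t : T, (rr T A (a l + t) : ℝ)) :=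
          sum_congr rfl fun l _ => by ring
      _ = k * (η + V₁ / η) + V₂ / η * ∑ l : Fin k, 𝔼 t : T, (rr T A (a l + t) : ℝ) := by
          rw [sum_add_distrib, ← mul_sum, sum_const, card_univ, Fintype.card_fin, nsmul_eq_mul]
      _ ≤ _ := by gcongr
  have h11 : ∑ l : Fin k, 𝔼 x, 𝔼 σ, 𝔼 σ₀, D σ σ₀ l x ≤ k * (η + V₁ / η + V₂ / η * E₂) := by
    calc _ ≤ ∑ _l : Fin k, (η + V₁ / η + V₂ / η * E₂) := by
          refine sum_le_sum fun l _ => ?_
          calc _ ≤ 𝔼 x : G, ((η + V₁ / η) + V₂ / η * 𝔼 t : T, (rr T A (x + t) : ℝ)) :=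
                expect_le_expect fun x _ => (h8 l x).trans (le_of_eq (by ring))
            _ = (η + V₁ / η) + V₂ / η * 𝔼 x, (rr T A x : ℝ) := by
                rw [expect_add_distrib, Fintype.expect_const, ← mul_expect,
                  expect_add_right T hT (fun x => (rr T A x : ℝ))]
            _ ≤ _ := by gcongr
      _ = _ := by rw [sum_const, card_univ, Fintype.card_fin, nsmul_eq_mul]
  calc _ = 𝔼 _σ : Fin j → Fin m → T, 𝔼 _σ₀ : Fin m → T,
        ∑ l : Fin k, w l * tr Λ (Ft T m κ Z (past a l) (a l)) := by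
        simp_rw [Fintype.expect_const]
    _ ≤ 𝔼 σ : Fin j → Fin m → T, 𝔼 σ₀ : Fin m → T,
        (2 * ∑ l : Fin k, (𝔼 x, w l * tr Λ (Ft T m κ Z (past a l) x)) + Λ * L
        + (∑ l : Fin k, D σ σ₀ l (a l) + 2 * ∑ l : Fin k, 𝔼 x, D σ σ₀ l x)) :=
        expect_le_expect fun σ _ => expect_le_expect fun σ₀ _ => h1 σ σ₀
    _ = 2 * ∑ l : Fin k, (𝔼 x, w l * tr Λ (Ft T m κ Z (past a l) x)) + Λ * L
        + 𝔼 σ, 𝔼 σ₀, (∑ l : Fin k, D σ σ₀ l (a l) + 2 * ∑ l : Fin k, 𝔼 x, D σ σ₀ l x) := by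
        rw [← Fintype.expect_const (ι := Fin j → Fin m → T)
          (2 * ∑ l : Fin k, (𝔼 x, w l * tr Λ (Ft T m κ Z (past a l) x)) + Λ * L),
          ← expect_add_distrib]
        refine expect_congr rfl fun σ _ => ?_
        rw [expect_add_distrib, Fintype.expect_const, Fintype.expect_const]
    _ ≤ _ := by rw [h9]; nlinarith

end Pool.Agent.Lib.Cov39
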